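import Pool.Agent.Helper40.AV.St

/-!
# Project AV, second part: the linear sieve for intervals by iteration

Statements of the modules.
-/

set_option autoImplicit false

open Filter Topology

namespace Pool.Agent.Helper40.AV

/-- upper bound for the number of integers free of primes `≤ z` in intervals of length `≥ z ^ s` -/
def UpB (s F : ℝ) : Prop :=
  ∀ ε : ℝ, 0 < ε → ∃ z₀ : ℝ, ∀ z : ℝ, z₀ ≤ z → ∀ y l : ℕ, z ^ s ≤ l →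
    ((RS y l z).card : ℝ) ≤ (F + ε) * l * VV z

/-- lower bound -/
def LoB (s f : ℝ) : Prop :=
  ∀ ε : ℝ, 0 < ε → ∃ z₀ : ℝ, ∀ z : ℝ, z₀ ≤ z → ∀ y l : ℕ, z ^ s ≤ l →
    (f - ε) * l * VV z ≤ ((RS y l z).card : ℝ)

/-- LS1 -/
def SelUp : Prop :=
  (∀ s : ℝ, 1 ≤ s → s ≤ 2 → UpB s (2 * Real.exp Real.eulerMascheroniConstant / s)) ∧
  (∀ s : ℝ, 2 ≤ s → s ≤ 4 → UpB s (Real.exp Real.eulerMascheroniConstant / cu (s / 2)))

/-- LS2 -/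
def TailUp : Prop := UpB 12 1.0005

/-- LS3 -/
def TailLo : Prop := LoB 12 0.9998

/-- LS4: Buchstab step, lower bound -/
def StepLo : Prop :=
  ∀ (s T g : ℝ) (n : ℕ) (t F : ℕ → ℝ), 1 < s → t 0 = s → t n = T → (∀ i < n, t i < t (i + 1)) →
    (∀ i < n, UpB (t i - 1) (F i)) → LoB T g →
    LoB s (T / s * g - 1 / s * ∑ i ∈ Finset.range n, (t (i + 1) - t i) * F i)

/-- LS5: Buchstab step, upper bound -/
def StepUp : Prop :=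
  ∀ (s T G : ℝ) (n : ℕ) (t f : ℕ → ℝ), 1 < s → t 0 = s → t n = T → (∀ i < n, t i < t (i + 1)) →
    (∀ i < n, f i = 0 ∨ (3 ≤ t i ∧ LoB (t i - 1) (f i))) → UpB T G →
    UpB s (T / s * G - 1 / s * ∑ i ∈ Finset.range n, (t (i + 1) - t i) * f i)

/-- LS6: the table -/
def Tab : Prop := LoB 3.4375 0.895

open Classical in
/-- LS7: rough integers without a large prime factor, second version -/
def TopUp2 : Prop :=
  ∀ ε : ℝ, 0 < ε → ∃ X₀ : ℝ, ∀ X : ℝ, X₀ ≤ X → ∀ y l : ℕ, X ^ (0.4998 : ℝ) ≤ l → (l : ℝ) ≤ X →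
    ∑ p ∈ PI (X ^ (0.145 : ℝ)) (X ^ (0.433 : ℝ)), Real.log p / Real.log X *
      ((((Finset.Ico y (y + l)).filter fun n => p ∣ n ∧
        ∀ r : ℕ, r.Prime → r ∣ n → X ^ (0.145 : ℝ) < r).card : ℕ) : ℝ) ≤
    ((∫ a in (0.145 : ℝ)..(0.2095 : ℝ), 1 / (0.145 * cu ((0.4995 - a) / 0.29))) +
      (∫ a in (0.2095 : ℝ)..(0.433 : ℝ), 2 / (0.4995 - a)) + ε) * l / Real.log X

/-- LS8: the numerical part -/
def NumInt2 : Prop :=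
  (∫ a in (0.145 : ℝ)..(0.2095 : ℝ), 1 / (0.145 * cu ((0.4995 - a) / 0.29))) ≤ 0.41 ∧
  (∫ a in (0.2095 : ℝ)..(0.433 : ℝ), 2 / (0.4995 - a)) ≤ 2.95

open Classical in
/-- LS9: availability, second version -/
def Avail2 : Prop :=
  ∃ c : ℝ, 0 < c ∧ ∃ X₀ : ℕ, ∀ x h : ℕ, X₀ ≤ x → (x : ℝ) ^ (1 / 2 - 1 / 10000 : ℝ) ≤ h →
    (h : ℝ) ≤ (x : ℝ) ^ (1 / 2 : ℝ) →
    c * h / Real.log x ≤ (((Finset.Ico x (x + h)).filter (fun n => Squarefree n ∧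
      ∃ q m : ℕ, q.Prime ∧ n = q * m ∧ (x : ℝ) ^ (0.433 : ℝ) ≤ q ∧
        ∀ p : ℕ, p.Prime → p ∣ m → (x : ℝ) ^ (0.145 : ℝ) ≤ p)).card : ℝ)

end Pool.Agent.Helper40.AV
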