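import Pool.Agent.Helper40.AV.LowerS
import Pool.Agent.Helper10.QRH.StB

/-! Project AV: AV9, availability. -/

set_option autoImplicit false

open Filter Topology

namespace Pool.Agent.Helper40.AV

open Pool.Agent.Helper44 (primesUpTo mem_primesUpTo)
open Pool.Agent.Helper10.QRH (Squares)

open Classical in
/-- squarefree rough integers without a large prime factor -/
theorem small_le {x h : ℕ} (hx : 1 < x) (S : Finset ℕ)
    (hS : S ⊆ (RS x h ((x : ℝ) ^ (1 / 8 : ℝ))).filter fun n => Squarefree n ∧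
      ∀ q : ℕ, q.Prime → q ∣ n → (q : ℝ) < (x : ℝ) ^ (0.435 : ℝ)) :
    (S.card : ℝ) ≤ ∑ p ∈ PI ((x : ℝ) ^ (1 / 8 : ℝ)) ((x : ℝ) ^ (0.435 : ℝ)),
      Real.log p / Real.log x * ((((Finset.Ico x (x + h)).filter fun n => p ∣ n ∧
        ∀ r : ℕ, r.Prime → r ∣ n → (x : ℝ) ^ (1 / 8 : ℝ) < r).card : ℕ) : ℝ) := by
  have hx1 : (1 : ℝ) < x := by exact_mod_cast hx
  have hL : 0 < Real.log x := Real.log_pos hx1
  have hx0 : (0 : ℝ) < x := by linarith
  have key : ∀ n ∈ S, (1 : ℝ) ≤ ∑ p ∈ PI ((x : ℝ) ^ (1 / 8 : ℝ)) ((x : ℝ) ^ (0.435 : ℝ)),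
      Real.log p / Real.log x * (if p ∣ n then 1 else 0) := by
    intro n hn
    have hn' := hS hn
    rw [Finset.mem_filter, RS, Finset.mem_filter, Finset.mem_Ico] at hn'
    obtain ⟨⟨⟨hn1, hn2⟩, hn3⟩, hn4, hn5⟩ := hn'
    have hn0 : n ≠ 0 := by omega
    have h1 : ∑ p ∈ n.primeFactors, Real.log p = Real.log n := by
      conv_rhs => rw [← Nat.prod_primeFactors_of_squarefree hn4]
      push_cast
      rw [Real.log_prod]
      intro p hp
      have := (Nat.prime_of_mem_primeFactors hp).pos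
      positivity
    have h2 : Real.log x ≤ Real.log n := Real.log_le_log hx0 (by exact_mod_cast hn1)
    have h3 : n.primeFactors ⊆ (PI ((x : ℝ) ^ (1 / 8 : ℝ)) ((x : ℝ) ^ (0.435 : ℝ))).filter
        fun p => p ∣ n := by
      intro p hp
      have hpp := Nat.prime_of_mem_primeFactors hp
      have hpd := Nat.dvd_of_mem_primeFactors hp
      rw [Finset.mem_filter, mem_PI (Real.rpow_nonneg hx0.le _)]
      exact ⟨⟨hpp, hn3 p hpp hpd, (hn5 p hpp hpd).le⟩, hpd⟩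
    have h4 : ∑ p ∈ PI ((x : ℝ) ^ (1 / 8 : ℝ)) ((x : ℝ) ^ (0.435 : ℝ)),
        Real.log p / Real.log x * (if p ∣ n then 1 else 0) =
        ∑ p ∈ (PI ((x : ℝ) ^ (1 / 8 : ℝ)) ((x : ℝ) ^ (0.435 : ℝ))).filter (fun p => p ∣ n),
          Real.log p / Real.log x := by
      rw [Finset.sum_filter]
      refine Finset.sum_congr rfl fun p _ => ?_
      split <;> simp
    rw [h4]
    have h5 : ∑ p ∈ n.primeFactors, Real.log p / Real.log x ≤
        ∑ p ∈ (PI ((x : ℝ) ^ (1 / 8 : ℝ)) ((x : ℝ) ^ (0.435 : ℝ))).filter (fun p => p ∣ n),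
          Real.log p / Real.log x := by
      refine Finset.sum_le_sum_of_subset_of_nonneg h3 fun p hp _ => ?_
      rw [Finset.mem_filter, mem_PI (Real.rpow_nonneg hx0.le _)] at hp
      have : (1 : ℝ) ≤ p := by exact_mod_cast hp.1.1.one_le
      exact div_nonneg (Real.log_nonneg this) hL.le
    refine le_trans ?_ h5
    rw [← Finset.sum_div, h1, le_div_iff₀ hL, one_mul]
    exact h2
  calc (S.card : ℝ) = ∑ _n ∈ S, (1 : ℝ) := by simp
    _ ≤ ∑ n ∈ S, ∑ p ∈ PI ((x : ℝ) ^ (1 / 8 : ℝ)) ((x : ℝ) ^ (0.435 : ℝ)),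
        Real.log p / Real.log x * (if p ∣ n then 1 else 0) := Finset.sum_le_sum key
    _ = ∑ p ∈ PI ((x : ℝ) ^ (1 / 8 : ℝ)) ((x : ℝ) ^ (0.435 : ℝ)),
        Real.log p / Real.log x * ∑ n ∈ S, (if p ∣ n then (1 : ℝ) else 0) := by
        rw [Finset.sum_comm]
        exact Finset.sum_congr rfl fun p _ => by rw [Finset.mul_sum]
    _ ≤ _ := by
        refine Finset.sum_le_sum fun p hp => ?_
        rw [mem_PI (Real.rpow_nonneg hx0.le _)] at hp
        have : (1 : ℝ) ≤ p := by exact_mod_cast hp.1.one_le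
        refine mul_le_mul_of_nonneg_left ?_ (div_nonneg (Real.log_nonneg this) hL.le)
        rw [← Finset.sum_filter, Finset.sum_const, nsmul_eq_mul, mul_one]
        have hsub : S.filter (fun n => p ∣ n) ⊆ (Finset.Ico x (x + h)).filter fun n => p ∣ n ∧
            ∀ r : ℕ, r.Prime → r ∣ n → (x : ℝ) ^ (1 / 8 : ℝ) < r := by
          intro n hn
          rw [Finset.mem_filter] at hn
          have hn' := hS hn.1
          rw [Finset.mem_filter, RS, Finset.mem_filter] at hn'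
          rw [Finset.mem_filter]
          exact ⟨hn'.1.1, hn.2, hn'.1.2⟩
        exact_mod_cast Finset.card_le_card hsub

open Classical in
theorem avail_of (hLow : LowerS) (hB : Buchstab) (hMid : MidUp) (hTop : TopUp) (hI : NumInt)
    (hN : GammaNum) (hSq : Squares) : Avail := by
  obtain ⟨X1, hX1⟩ := hLow 0.01 (by norm_num)
  obtain ⟨X2, hX2⟩ := hMid 0.01 (by norm_num)
  obtain ⟨X3, hX3⟩ := hTop 0.01 (by norm_num)
  obtain ⟨X4, hX4⟩ := hSq
  obtain ⟨hI1, hI2, hI3, hI4⟩ := hI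
  have hγ := hN.1
  -- squares are negligible
  have e1 : ∀ᶠ x : ℝ in atTop, 2 / x ^ (1 / 8 : ℝ) ≤ 0.01 / Real.log x := by
    have h1 := (isLittleO_log_rpow_atTop (show (0 : ℝ) < 1 / 8 by norm_num)).def
      (show (0 : ℝ) < 0.005 by norm_num)
    filter_upwards [h1, eventually_gt_atTop (1 : ℝ)] with x hx hx1
    have hx0 : 0 < x := by linarith
    rw [Real.norm_of_nonneg (Real.log_nonneg hx1.le),
      Real.norm_of_nonneg (Real.rpow_nonneg hx0.le _)] at hx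
    rw [div_le_div_iff₀ (Real.rpow_pos_of_pos hx0 _) (Real.log_pos hx1)]
    linarith
  have e2 : ∀ᶠ x : ℝ in atTop, 4 * x ^ (1 / 3 : ℝ) ≤ 0.01 / Real.log x *
      x ^ (1 / 2 - 1 / 10000 : ℝ) := by
    have h1 := (isLittleO_log_rpow_atTop (show (0 : ℝ) < 1 / 10 by norm_num)).def
      (show (0 : ℝ) < 0.0025 by norm_num)
    filter_upwards [h1, eventually_gt_atTop (1 : ℝ)] with x hx hx1
    have hx0 : 0 < x := by linarith
    have hL := Real.log_pos hx1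
    rw [Real.norm_of_nonneg hL.le, Real.norm_of_nonneg (Real.rpow_nonneg hx0.le _)] at hx
    rw [div_mul_eq_mul_div, le_div_iff₀ hL]
    have h2 : x ^ (1 / 3 : ℝ) * x ^ (1 / 10 : ℝ) ≤ x ^ (1 / 2 - 1 / 10000 : ℝ) := by
      rw [← Real.rpow_add hx0]
      exact Real.rpow_le_rpow_of_exponent_le hx1.le (by norm_num)
    have h3 : 0 < x ^ (1 / 3 : ℝ) := Real.rpow_pos_of_pos hx0 _
    calc 4 * x ^ (1 / 3 : ℝ) * Real.log x ≤ 4 * x ^ (1 / 3 : ℝ) * (0.0025 * x ^ (1 / 10 : ℝ)) :=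
          mul_le_mul_of_nonneg_left hx (by positivity)
      _ = 0.01 * (x ^ (1 / 3 : ℝ) * x ^ (1 / 10 : ℝ)) := by ring
      _ ≤ _ := mul_le_mul_of_nonneg_left h2 (by norm_num)
  obtain ⟨X5, hX5⟩ := eventually_atTop.1 (e1.and e2)
  refine ⟨0.1, by norm_num, max (max (max ⌈X1⌉₊ ⌈X2⌉₊) (max ⌈X3⌉₊ X4)) (max ⌈X5⌉₊ 2), ?_⟩
  intro x h hx hh1 hh2
  have hxX1 : X1 ≤ x := (Nat.le_ceil X1).trans (by exact_mod_cast (by omega : ⌈X1⌉₊ ≤ x))
  have hxX2 : X2 ≤ x := (Nat.le_ceil X2).trans (by exact_mod_cast (by omega : ⌈X2⌉₊ ≤ x))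
  have hxX3 : X3 ≤ x := (Nat.le_ceil X3).trans (by exact_mod_cast (by omega : ⌈X3⌉₊ ≤ x))
  have hxX5 : X5 ≤ x := (Nat.le_ceil X5).trans (by exact_mod_cast (by omega : ⌈X5⌉₊ ≤ x))
  have hx2 : 2 ≤ x := by omega
  have hx1 : (1 : ℝ) < x := by exact_mod_cast (by omega : 1 < x)
  have hx0 : (0 : ℝ) < x := by linarith
  have hL : 0 < Real.log x := Real.log_pos hx1
  have hh1' : (x : ℝ) ^ (0.4998 : ℝ) ≤ h :=
    (Real.rpow_le_rpow_of_exponent_le hx1.le (by norm_num)).trans hh1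
  have hhx : (h : ℝ) ≤ x := hh2.trans (by
    calc (x : ℝ) ^ (1 / 2 : ℝ) ≤ (x : ℝ) ^ (1 : ℝ) :=
          Real.rpow_le_rpow_of_exponent_le hx1.le (by norm_num)
      _ = x := Real.rpow_one _)
  have a1 := hX1 x hxX1 x h hh1' hhx
  have a2 := hX2 x hxX2 x h hh1' hhx
  have a3 := hX3 x hxX3 x h hh1' hhx
  have z16 : (1 : ℝ) ≤ (x : ℝ) ^ (1 / 16 : ℝ) := Real.one_le_rpow hx1.le (by norm_num)
  have z8 : (1 : ℝ) ≤ (x : ℝ) ^ (1 / 8 : ℝ) := Real.one_le_rpow hx1.le (by norm_num)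
  have a4 := hB x h ((x : ℝ) ^ (1 / 16 : ℝ)) ((x : ℝ) ^ (1 / 8 : ℝ)) z16
    (Real.rpow_le_rpow_of_exponent_le hx1.le (by norm_num))
  have a5 := hX4 x h (by omega) hh2 ((x : ℝ) ^ (1 / 8 : ℝ)) z8
  obtain ⟨b1, b2⟩ := hX5 x hxX5
  -- the sets
  set A := RS x h ((x : ℝ) ^ (1 / 8 : ℝ)) with hA
  set T := (Finset.Ico x (x + h)).filter (fun n => Squarefree n ∧
      ∃ q m : ℕ, q.Prime ∧ n = q * m ∧ (x : ℝ) ^ (0.435 : ℝ) ≤ q ∧
        ∀ p : ℕ, p.Prime → p ∣ m → (x : ℝ) ^ (0.125 : ℝ) ≤ p) with hT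
  set Q := (Finset.Ico x (x + h)).filter
    (fun n => ∃ p : ℕ, p.Prime ∧ (x : ℝ) ^ (1 / 8 : ℝ) < p ∧ p ^ 2 ∣ n) with hQ
  set S := A.filter fun n => Squarefree n ∧
      ∀ q : ℕ, q.Prime → q ∣ n → (q : ℝ) < (x : ℝ) ^ (0.435 : ℝ) with hS
  have hcover : A ⊆ T ∪ (Q ∪ S) := by
    intro n hn
    have hn' := hn
    rw [hA, RS, Finset.mem_filter] at hn'
    obtain ⟨hn1, hn3⟩ := hn'
    have hn0 : n ≠ 0 := by
      have := (Finset.mem_Ico.1 hn1).1
      omega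
    rw [Finset.mem_union, Finset.mem_union]
    by_cases hsq : Squarefree n
    · by_cases hq : ∃ q : ℕ, q.Prime ∧ q ∣ n ∧ (x : ℝ) ^ (0.435 : ℝ) ≤ q
      · left
        obtain ⟨q, hq1, hq2, hq3⟩ := hq
        obtain ⟨m, rfl⟩ := hq2
        rw [hT, Finset.mem_filter]
        refine ⟨hn1, hsq, q, m, hq1, rfl, hq3, fun p hp hpm => ?_⟩
        have := hn3 p hp (hpm.mul_left q)
        have h8 : (1 / 8 : ℝ) = 0.125 := by norm_num
        rw [← h8]
        exact this.le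
      · right; right
        rw [hS, Finset.mem_filter]
        refine ⟨hn, hsq, fun q hq1 hq2 => ?_⟩
        by_contra hcon
        exact hq ⟨q, hq1, hq2, not_lt.1 hcon⟩
    · right; left
      rw [hQ, Finset.mem_filter]
      refine ⟨hn1, ?_⟩
      rw [Nat.squarefree_iff_prime_squarefree] at hsq
      push Not at hsq
      obtain ⟨p, hp, hpn⟩ := hsq
      exact ⟨p, hp, hn3 p hp ((dvd_mul_right p p).trans hpn), by rwa [sq]⟩
  have c1 : (A.card : ℝ) ≤ T.card + (Q.card + S.card) := by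
    have h1 := Finset.card_le_card hcover
    have h2 := Finset.card_union_le T (Q ∪ S)
    have h3 := Finset.card_union_le Q S
    exact_mod_cast (by omega : A.card ≤ T.card + (Q.card + S.card))
  have c2 := small_le (by omega : 1 < x) S (by rw [hS])
  have c3 : (Q.card : ℝ) ≤ 0.02 * (h / Real.log x) := by
    have h1 : (2 : ℝ) * h / (x : ℝ) ^ (1 / 8 : ℝ) ≤ 0.01 * (h / Real.log x) := by
      calc (2 : ℝ) * h / (x : ℝ) ^ (1 / 8 : ℝ) = h * (2 / (x : ℝ) ^ (1 / 8 : ℝ)) := by ring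
        _ ≤ h * (0.01 / Real.log x) := mul_le_mul_of_nonneg_left b1 (Nat.cast_nonneg h)
        _ = _ := by ring
    have h2 : 4 * (x : ℝ) ^ (1 / 3 : ℝ) ≤ 0.01 * (h / Real.log x) := by
      calc 4 * (x : ℝ) ^ (1 / 3 : ℝ) ≤ 0.01 / Real.log x * (x : ℝ) ^ (1 / 2 - 1 / 10000 : ℝ) := b2
        _ ≤ 0.01 / Real.log x * h := mul_le_mul_of_nonneg_left hh1 (by positivity)
        _ = _ := by ring
    have h3 : (Q.card : ℝ) ≤ 2 * h / (x : ℝ) ^ (1 / 8 : ℝ) + 4 * (x : ℝ) ^ (1 / 3 : ℝ) := by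
      convert a5 using 2
    linarith
  have d : (0 : ℝ) ≤ h / Real.log x := by positivity
  have a1' : (16 * 0.557 - 0.08 - 0.01) * (h / Real.log x) ≤
      (RS x h ((x : ℝ) ^ (1 / 16 : ℝ))).card := by
    refine le_trans ?_ a1
    rw [mul_div_assoc]
    apply mul_le_mul_of_nonneg_right _ d
    linarith
  have a2' : ∑ p ∈ PI ((x : ℝ) ^ (1 / 16 : ℝ)) ((x : ℝ) ^ (1 / 8 : ℝ)),
      ((((Finset.Ico x (x + h)).filter fun n => p ∣ n ∧
        ∀ r : ℕ, r.Prime → r ∣ n → (p : ℝ) - 1 / 2 < r).card : ℕ) : ℝ) ≤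
      (3.72 + 1.35 + 0.01) * (h / Real.log x) := by
    refine a2.trans ?_
    rw [mul_div_assoc]
    apply mul_le_mul_of_nonneg_right _ d
    linarith
  have a3' : (S.card : ℝ) ≤ (0.85 + 2.72 + 0.01) * (h / Real.log x) := by
    refine (c2.trans a3).trans ?_
    rw [mul_div_assoc]
    apply mul_le_mul_of_nonneg_right _ d
    linarith
  have hfinal : (0.1 : ℝ) * (h / Real.log x) ≤ T.card := by
    linarith
  rw [mul_div_assoc]
  exact hfinal

end Pool.Agent.Helper40.AV
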