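import Pool.Agent.Helper40.AV.St

/-! Project AV: elementary facts. -/

set_option autoImplicit false

open Filter Topology

namespace Pool.Agent.Helper40.AV

open Pool.Agent.Helper44 (primesUpTo mem_primesUpTo)

theorem mem_PI {a b : ℝ} (hb : 0 ≤ b) {p : ℕ} : p ∈ PI a b ↔ p.Prime ∧ a < p ∧ (p : ℝ) ≤ b := by
  unfold PI
  rw [Finset.mem_filter, mem_primesUpTo hb]
  tauto

open Classical in
theorem gg_mono (z : ℝ) {Y Y' : ℝ} (h : Y ≤ Y') : GG z Y ≤ GG z Y' := by
  unfold GG
  refine Finset.sum_le_sum_of_subset_of_nonneg ?_ (fun m _ _ => by positivity)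
  intro m hm
  rw [Finset.mem_filter, Finset.mem_Icc] at hm ⊢
  exact ⟨⟨hm.1.1, hm.1.2.trans (Nat.floor_le_floor h)⟩, hm.2⟩

open Classical in
theorem one_le_gg (z : ℝ) {Y : ℝ} (hY : 1 ≤ Y) : 1 ≤ GG z Y := by
  unfold GG
  have h1 : (1 : ℕ) ∈ (Finset.Icc 1 ⌊Y⌋₊).filter (fun m => Squarefree m ∧
      ∀ r : ℕ, r.Prime → r ∣ m → (r : ℝ) ≤ z) := by
    rw [Finset.mem_filter, Finset.mem_Icc]
    refine ⟨⟨le_rfl, ?_⟩, squarefree_one, ?_⟩
    · rw [Nat.le_floor_iff (by linarith)]
      exact_mod_cast hY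
    · intro r hr h
      rw [Nat.dvd_one] at h
      exact absurd (h ▸ hr) Nat.not_prime_one
  have h2 := Finset.single_le_sum (f := fun m : ℕ => (1 : ℝ) / m.totient)
    (fun m _ => by positivity) h1
  simpa using h2

theorem vv_pos (z : ℝ) : 0 < VV z := by
  unfold VV
  refine Finset.prod_pos fun r hr => ?_
  have hr' : r.Prime := (Finset.mem_filter.1 hr).2
  have : (2 : ℝ) ≤ r := by exact_mod_cast hr'.two_le
  have : (1 : ℝ) / r ≤ 1 / 2 := one_div_le_one_div_of_le (by norm_num) this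
  linarith

theorem vv_le_one (z : ℝ) : VV z ≤ 1 := by
  unfold VV
  refine Finset.prod_le_one (fun r hr => ?_) (fun r hr => ?_)
  · have hr' : r.Prime := (Finset.mem_filter.1 hr).2
    have : (2 : ℝ) ≤ r := by exact_mod_cast hr'.two_le
    have : (1 : ℝ) / r ≤ 1 / 2 := one_div_le_one_div_of_le (by norm_num) this
    linarith
  · have : (0 : ℝ) ≤ 1 / r := by positivity
    linarith

theorem tendsto_rpow_top {ω : ℝ} (hω : 0 < ω) : Tendsto (fun X : ℝ => X ^ ω) atTop atTop :=
  tendsto_rpow_atTop hω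

/-- `VV (t - 1/2) log t` tends to the same limit -/
theorem mertens3_shift {γ₀ : ℝ} (hM : Tendsto (fun z => VV z * Real.log z) atTop (𝓝 γ₀)) :
    Tendsto (fun t : ℝ => VV (t - 1 / 2) * Real.log t) atTop (𝓝 γ₀) := by
  have h1 : Tendsto (fun t : ℝ => t - 1 / 2) atTop atTop := tendsto_atTop_add_const_right _ _ tendsto_id
  have h2 := hM.comp h1
  have h3 : Tendsto (fun t : ℝ => Real.log t / Real.log (t - 1 / 2)) atTop (𝓝 1) := by
    have h4 : Tendsto (fun t : ℝ => 1 + Real.log 2 / Real.log (t - 1 / 2)) atTop (𝓝 1) := by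
      have h5 : Tendsto (fun t : ℝ => Real.log 2 / Real.log (t - 1 / 2)) atTop (𝓝 0) :=
        (Real.tendsto_log_atTop.comp h1).const_div_atTop _
      simpa using h5.const_add 1
    refine tendsto_of_tendsto_of_tendsto_of_le_of_le' tendsto_const_nhds h4 ?_ ?_
    · filter_upwards [eventually_ge_atTop (3 : ℝ)] with t ht
      have h6 : 0 < Real.log (t - 1 / 2) := Real.log_pos (by linarith)
      rw [le_div_iff₀ h6, one_mul]
      exact Real.log_le_log (by linarith) (by linarith)
    · filter_upwards [eventually_ge_atTop (3 : ℝ)] with t ht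
      have h6 : 0 < Real.log (t - 1 / 2) := Real.log_pos (by linarith)
      rw [div_le_iff₀ h6, add_mul, one_mul, div_mul_cancel₀ _ h6.ne',
        ← Real.log_mul (by linarith) (by norm_num)]
      exact Real.log_le_log (by linarith) (by linarith)
  have h7 := h2.mul h3
  rw [mul_one] at h7
  refine h7.congr' ?_
  filter_upwards [eventually_ge_atTop (3 : ℝ)] with t ht
  have h6 : 0 < Real.log (t - 1 / 2) := Real.log_pos (by linarith)
  have key : ∀ V a b : ℝ, a ≠ 0 → V * a * (b / a) = V * b := by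
    intro V a b ha
    field_simp
  exact key _ _ _ h6.ne'

end Pool.Agent.Helper40.AV
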