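import Pool.Agent.Helper51.AV.GammaNum

/-! A sharper numerical bound for `e ^ γ`. -/

set_option autoImplicit false

namespace Pool.Agent.Helper40.AV

open Real

theorem harmonic_1024 : (harmonic 1024 : ℚ) < 7.5091757 := by
  decide +kernel

theorem log1024 : Real.log 1024 = 10 * Real.log 2 := by
  rw [show (1024 : ℝ) = 2 ^ 10 by norm_num, Real.log_pow]
  norm_num

theorem gamma_lt' : eulerMascheroniConstant < 0.57771 := by
  have h1 := eulerMascheroniConstant_lt_eulerMascheroniSeq' 1024
  rw [eulerMascheroniSeq', if_neg (by norm_num)] at h1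
  have h2 : ((harmonic 1024 : ℚ) : ℝ) < 7.5091757 := by
    have := (Rat.cast_lt (K := ℝ)).2 harmonic_1024
    refine this.trans_eq ?_
    norm_num
  have h3 := Real.log_two_gt_d9
  push_cast at h1
  rw [log1024] at h1
  linarith

theorem exp_gamma_le : Real.exp eulerMascheroniConstant ≤ 1.782 := by
  have h1 : Real.exp eulerMascheroniConstant ≤ Real.exp 0.57771 :=
    Real.exp_le_exp.2 gamma_lt'.le
  refine h1.trans ?_
  have h3 := Real.exp_bound' (x := (0.57771 : ℝ)) (by norm_num) (by norm_num)
    (n := 9) (by norm_num)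
  refine h3.trans ?_
  norm_num [Finset.sum_range_succ, Nat.factorial]

end Pool.Agent.Helper40.AV
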