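import Pool.Agent.Helper40.AV.Final2

/-! Rough squarefree integers in every short interval, from the linear sieve. -/

set_option autoImplicit false

open Filter Topology

namespace Pool.Agent.Helper40.AV

open Pool.Agent.Helper44 (primesUpTo mem_primesUpTo)

open Classical in
/-- squarefree integers with all prime factors `> x ^ ζ` in every interval of length `x ^ (1/2 - d)` -/
def RoughAvail (ζ d : ℝ) : Prop :=
  ∃ c : ℝ, 0 < c ∧ ∃ X₀ : ℕ, ∀ x h : ℕ, X₀ ≤ x → (x : ℝ) ^ (1 / 2 - d : ℝ) ≤ h →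
    (h : ℝ) ≤ (x : ℝ) ^ (1 / 2 : ℝ) →
    c * h / Real.log x ≤ (((Finset.Ico x (x + h)).filter (fun n => Squarefree n ∧
      ∀ p : ℕ, p.Prime → p ∣ n → (x : ℝ) ^ ζ < p)).card : ℝ)

open Classical in
theorem roughAvail_of {s f ζ d : ℝ} (hs : LoB s f) (hf : 0 < f) (hζ : 0 < ζ) (hζ1 : ζ ≤ 1)
    (hd : s * ζ ≤ 1 / 2 - d) (hd1 : d ≤ 1 / 20) : RoughAvail ζ d := by
  obtain ⟨z₁, hz₁⟩ := hs (f / 2) (by positivity)
  obtain ⟨X4, hX4⟩ := Pool.Agent.Helper4.QRH.squares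
  have hM := Pool.Agent.Helper9.AV.mertens3
  have hγ := Pool.Agent.Helper51.AV.gammaNum.1
  have tz := tendsto_rpow_top hζ
  have e0 : ∀ᶠ x : ℝ in atTop, z₁ ≤ x ^ ζ := tz.eventually_ge_atTop z₁
  have e3 : ∀ᶠ x : ℝ in atTop, 0.55 ≤ VV (x ^ ζ) * Real.log (x ^ ζ) := by
    have h1 := (hM.comp tz).eventually_const_lt
      (show (0.55 : ℝ) < Real.exp (-Real.eulerMascheroniConstant) by linarith)
    filter_upwards [h1] with x hx
    exact hx.le
  have e1 : ∀ᶠ x : ℝ in atTop, 2 / x ^ ζ ≤ (0.1 * f) / Real.log x := by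
    have h1 := (isLittleO_log_rpow_atTop hζ).def
      (show (0 : ℝ) < 0.05 * f by positivity)
    filter_upwards [h1, eventually_gt_atTop (1 : ℝ)] with x hx hx1
    have hx0 : 0 < x := by linarith
    rw [Real.norm_of_nonneg (Real.log_nonneg hx1.le),
      Real.norm_of_nonneg (Real.rpow_nonneg hx0.le _)] at hx
    rw [div_le_div_iff₀ (Real.rpow_pos_of_pos hx0 _) (Real.log_pos hx1)]
    linarith
  have e2 : ∀ᶠ x : ℝ in atTop, 4 * x ^ (1 / 3 : ℝ) ≤ (0.1 * f) / Real.log x *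
      x ^ (1 / 2 - d : ℝ) := by
    have h1 := (isLittleO_log_rpow_atTop (show (0 : ℝ) < 1 / 10 by norm_num)).def
      (show (0 : ℝ) < 0.025 * f by positivity)
    filter_upwards [h1, eventually_gt_atTop (1 : ℝ)] with x hx hx1
    have hx0 : 0 < x := by linarith
    have hL := Real.log_pos hx1
    rw [Real.norm_of_nonneg hL.le, Real.norm_of_nonneg (Real.rpow_nonneg hx0.le _)] at hx
    rw [div_mul_eq_mul_div, le_div_iff₀ hL]
    have h2 : x ^ (1 / 3 : ℝ) * x ^ (1 / 10 : ℝ) ≤ x ^ (1 / 2 - d : ℝ) := by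
      rw [← Real.rpow_add hx0]
      exact Real.rpow_le_rpow_of_exponent_le hx1.le (by linarith)
    have h3 : 0 < x ^ (1 / 3 : ℝ) := Real.rpow_pos_of_pos hx0 _
    calc 4 * x ^ (1 / 3 : ℝ) * Real.log x ≤
          4 * x ^ (1 / 3 : ℝ) * (0.025 * f * x ^ (1 / 10 : ℝ)) :=
          mul_le_mul_of_nonneg_left hx (by positivity)
      _ = 0.1 * f * (x ^ (1 / 3 : ℝ) * x ^ (1 / 10 : ℝ)) := by ring
      _ ≤ _ := mul_le_mul_of_nonneg_left h2 (by positivity)
  obtain ⟨X5, hX5⟩ := eventually_atTop.1 (e0.and (e3.and (e1.and e2)))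
  refine ⟨0.07 * f, by positivity, max X4 (max ⌈X5⌉₊ 2), ?_⟩
  intro x h hx hh1 hh2
  have hxX5 : X5 ≤ x := (Nat.le_ceil X5).trans (by exact_mod_cast (by omega : ⌈X5⌉₊ ≤ x))
  have hx2 : 2 ≤ x := by omega
  have hx1 : (1 : ℝ) < x := by exact_mod_cast (by omega : 1 < x)
  have hx0 : (0 : ℝ) < x := by linarith
  have hL : 0 < Real.log x := Real.log_pos hx1
  obtain ⟨b0, b3, b1, b2⟩ := hX5 x hxX5
  have a1 := hz₁ ((x : ℝ) ^ ζ) b0 x h (by
    rw [← Real.rpow_mul hx0.le, mul_comm]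
    exact (Real.rpow_le_rpow_of_exponent_le hx1.le hd).trans hh1)
  have z8 : (1 : ℝ) ≤ (x : ℝ) ^ ζ := Real.one_le_rpow hx1.le hζ.le
  have a5 := hX4 x h (by omega) hh2 ((x : ℝ) ^ ζ) z8
  -- the sets
  set A := RS x h ((x : ℝ) ^ ζ) with hA
  set T := (Finset.Ico x (x + h)).filter (fun n => Squarefree n ∧
      ∀ p : ℕ, p.Prime → p ∣ n → (x : ℝ) ^ ζ < p) with hT
  set Q := (Finset.Ico x (x + h)).filter
    (fun n => ∃ p : ℕ, p.Prime ∧ (x : ℝ) ^ ζ < p ∧ p ^ 2 ∣ n) with hQ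
  have hcover : A ⊆ T ∪ Q := by
    intro n hn
    rw [hA, RS, Finset.mem_filter] at hn
    obtain ⟨hn1, hn3⟩ := hn
    rw [Finset.mem_union]
    by_cases hsq : Squarefree n
    · left
      rw [hT, Finset.mem_filter]
      exact ⟨hn1, hsq, hn3⟩
    · right
      rw [hQ, Finset.mem_filter]
      refine ⟨hn1, ?_⟩
      rw [Nat.squarefree_iff_prime_squarefree] at hsq
      push Not at hsq
      obtain ⟨p, hp, hpn⟩ := hsq
      exact ⟨p, hp, hn3 p hp ((dvd_mul_right p p).trans hpn), by rwa [sq]⟩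
  have c1 : (A.card : ℝ) ≤ T.card + Q.card := by
    have h1 := Finset.card_le_card hcover
    have h2 := Finset.card_union_le T Q
    exact_mod_cast (by omega : A.card ≤ T.card + Q.card)
  have d0 : (0 : ℝ) ≤ h / Real.log x := by positivity
  have c3 : (Q.card : ℝ) ≤ 0.2 * f * (h / Real.log x) := by
    have h1 : (2 : ℝ) * h / (x : ℝ) ^ ζ ≤ 0.1 * f * (h / Real.log x) := by
      calc (2 : ℝ) * h / (x : ℝ) ^ ζ = h * (2 / (x : ℝ) ^ ζ) := by ring
        _ ≤ h * (0.1 * f / Real.log x) := mul_le_mul_of_nonneg_left b1 (Nat.cast_nonneg h)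
        _ = _ := by ring
    have h2 : 4 * (x : ℝ) ^ (1 / 3 : ℝ) ≤ 0.1 * f * (h / Real.log x) := by
      calc 4 * (x : ℝ) ^ (1 / 3 : ℝ) ≤ 0.1 * f / Real.log x * (x : ℝ) ^ (1 / 2 - d : ℝ) := b2
        _ ≤ 0.1 * f / Real.log x * h := mul_le_mul_of_nonneg_left hh1 (by positivity)
        _ = _ := by ring
    have h3 : (Q.card : ℝ) ≤ 2 * h / (x : ℝ) ^ ζ + 4 * (x : ℝ) ^ (1 / 3 : ℝ) := by
      convert a5 using 2
    linarith
  have a1' : 0.275 * f * (h / Real.log x) ≤ A.card := by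
    refine le_trans ?_ a1
    rw [Real.log_rpow hx0] at b3
    have h1 : 0.55 / Real.log x ≤ VV ((x : ℝ) ^ ζ) := by
      rw [div_le_iff₀ hL]
      have hv := vv_pos ((x : ℝ) ^ ζ)
      have : VV ((x : ℝ) ^ ζ) * (ζ * Real.log x) ≤ VV ((x : ℝ) ^ ζ) * Real.log x := by
        apply mul_le_mul_of_nonneg_left _ hv.le
        nlinarith
      linarith
    calc 0.275 * f * (h / Real.log x) = (f - f / 2) * h * (0.55 / Real.log x) := by ring
      _ ≤ _ := by
        apply mul_le_mul_of_nonneg_left h1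
        have : (0 : ℝ) ≤ h := Nat.cast_nonneg h
        have : 0 ≤ f - f / 2 := by linarith
        positivity
  rw [mul_div_assoc]
  linarith

end Pool.Agent.Helper40.AV
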