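import Pool.Agent.Helper40.AV.Main
import Pool.Agent.Helper9.AV.Mertens3

/-! Project AV: availability. -/

set_option autoImplicit false

namespace Pool.Agent.Helper40.AV

theorem avail : Avail := avail_of_mertens Pool.Agent.Helper9.AV.mertens3

end Pool.Agent.Helper40.AV
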