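import Pool.Agent.Helper44.MertensProd

/-!
# Project AV (part of KS, MP_768c9c_nt): rough integers with a large prime factor in short intervals

Statements of the modules.
-/

set_option autoImplicit false

open Filter Topology

namespace Pool.Agent.Helper40.AV

open Pool.Agent.Helper44 (primesUpTo)

/-- the product over the primes `r ≤ z` -/
noncomputable def VV (z : ℝ) : ℝ := ∏ r ∈ primesUpTo z, (1 - (1 : ℝ) / r)

/-- the primes in `(a, b]` -/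
noncomputable def PI (a b : ℝ) : Finset ℕ := (primesUpTo b).filter fun p => a < (p : ℝ)

open Classical in
/-- the integers in `[y, y + l)` all of whose prime factors exceed `z` -/
noncomputable def RS (y l : ℕ) (z : ℝ) : Finset ℕ :=
  (Finset.Ico y (y + l)).filter fun n => ∀ r : ℕ, r.Prime → r ∣ n → z < r

open Classical in
/-- Selberg's sum -/
noncomputable def GG (z Y : ℝ) : ℝ :=
  ∑ m ∈ (Finset.Icc 1 ⌊Y⌋₊).filter (fun m => Squarefree m ∧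
    ∀ r : ℕ, r.Prime → r ∣ m → (r : ℝ) ≤ z), (1 : ℝ) / m.totient

/-- AV1: Mertens' third theorem -/
def Mertens3 : Prop :=
  Tendsto (fun z => VV z * Real.log z) atTop (𝓝 (Real.exp (-Real.eulerMascheroniConstant)))

/-- AV1b -/
def GammaNum : Prop :=
  (0.557 : ℝ) ≤ Real.exp (-Real.eulerMascheroniConstant) ∧
    Real.exp (-Real.eulerMascheroniConstant) ≤ 0.57

open Classical in
/-- AV2: Selberg's sieve for multiples of `p` in an interval (`p = 1` allowed) -/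
def SelbergP : Prop :=
  ∀ (y l p : ℕ) (z Y : ℝ), 1 ≤ p → 1 ≤ Y →
    ((((Finset.Ico y (y + l)).filter fun n => p ∣ n ∧
      ∀ r : ℕ, r.Prime → r ∣ n → z < r).card : ℕ) : ℝ) ≤ (l / p + 1) / GG z Y + Y ^ 2

/-- AV3a: lower bound for Selberg's sum, `1 ≤ u ≤ 2` -/
def GGlow : Prop :=
  ∃ C : ℝ, ∀ z u : ℝ, 2 ≤ z → 1 ≤ u → u ≤ 2 →
    (2 * u - 1 - u * Real.log u) * Real.log z - C ≤ GG z (z ^ u)

/-- AV3a: trivial lower bound for Selberg's sum, `Y ≤ z` -/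
def GGtriv : Prop := ∀ z Y : ℝ, 1 ≤ Y → Y ≤ z → Real.log Y ≤ GG z Y

/-- AV3b: Selberg's sum for large `u` (Rankin) -/
def GGrankin : Prop :=
  ∃ z₀ : ℝ, 2 ≤ z₀ ∧ ∀ z u : ℝ, z₀ ≤ z → 0 ≤ u →
    1 - Real.exp (4.2 - 2 * u) ≤ VV z * GG z (z ^ u)

/-- AV4: sums over primes and integrals -/
def PrimeInt : Prop :=
  ∀ (α β : ℝ) (f : ℝ → ℝ), 0 < α → α ≤ β → ContinuousOn f (Set.Icc α β) →
    Tendsto (fun X : ℝ => ∑ p ∈ PI (X ^ α) (X ^ β), (1 : ℝ) / p * f (Real.log p / Real.log X)) atTop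
      (𝓝 (∫ a in α..β, f a / a))

open Classical in
/-- AV5: Buchstab's inequality -/
def Buchstab : Prop :=
  ∀ (y l : ℕ) (w z : ℝ), 1 ≤ w → w ≤ z →
    ((RS y l w).card : ℝ) ≤ (RS y l z).card + ∑ p ∈ PI w z,
      ((((Finset.Ico y (y + l)).filter fun n => p ∣ n ∧
        ∀ r : ℕ, r.Prime → r ∣ n → (p : ℝ) - 1 / 2 < r).card : ℕ) : ℝ)

/-- AV5: the product telescopes -/
def Telescope : Prop :=
  ∀ w z : ℝ, 1 ≤ w → w ≤ z → VV w - VV z = ∑ p ∈ PI w z, VV ((p : ℝ) - 1 / 2) / p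

/-- AV0: fundamental lemma with a quantitative level -/
def RoughQ : Prop :=
  ∀ η : ℝ, 0 < η → ∃ ε K z₀ : ℝ, 0 < ε ∧ 1 ≤ K ∧ ε * K ≤ η ∧ ∀ z : ℝ, z₀ ≤ z → ∀ y l : ℕ,
    z ^ K ≤ (l : ℝ) → (1 - ε) * l * VV z ≤ (RS y l z).card

/-- the function in the lower bound of Selberg's sum -/
noncomputable def cu (u : ℝ) : ℝ := 2 * u - 1 - u * Real.log u

/-- AV6: lower bound for the number of rough integers, level `X ^ (1 / 16)` -/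
def LowerS : Prop :=
  ∀ ε : ℝ, 0 < ε → ∃ X₀ : ℝ, ∀ X : ℝ, X₀ ≤ X → ∀ y l : ℕ, X ^ (0.4998 : ℝ) ≤ l → (l : ℝ) ≤ X →
    (16 * Real.exp (-Real.eulerMascheroniConstant) - 0.08 - ε) * l / Real.log X ≤
      (RS y l (X ^ (1 / 16 : ℝ))).card

open Classical in
/-- AV7: the integers whose smallest prime factor is in `(X ^ (1 / 16), X ^ (1 / 8)]` -/
def MidUp : Prop :=
  ∀ ε : ℝ, 0 < ε → ∃ X₀ : ℝ, ∀ X : ℝ, X₀ ≤ X → ∀ y l : ℕ, X ^ (0.4998 : ℝ) ≤ l → (l : ℝ) ≤ X →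
    ∑ p ∈ PI (X ^ (1 / 16 : ℝ)) (X ^ (1 / 8 : ℝ)),
      ((((Finset.Ico y (y + l)).filter fun n => p ∣ n ∧
        ∀ r : ℕ, r.Prime → r ∣ n → (p : ℝ) - 1 / 2 < r).card : ℕ) : ℝ) ≤
    ((∫ a in (1 / 16 : ℝ)..(0.0999 : ℝ), 1 / (cu 2 * a ^ 2)) +
      (∫ a in (0.0999 : ℝ)..(1 / 8 : ℝ), 1 / (cu ((0.4995 - a) / (2 * a)) * a ^ 2)) + ε) *
      l / Real.log X

open Classical in
/-- AV8: rough integers without a large prime factor -/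
def TopUp : Prop :=
  ∀ ε : ℝ, 0 < ε → ∃ X₀ : ℝ, ∀ X : ℝ, X₀ ≤ X → ∀ y l : ℕ, X ^ (0.4998 : ℝ) ≤ l → (l : ℝ) ≤ X →
    ∑ p ∈ PI (X ^ (1 / 8 : ℝ)) (X ^ (0.435 : ℝ)), Real.log p / Real.log X *
      ((((Finset.Ico y (y + l)).filter fun n => p ∣ n ∧
        ∀ r : ℕ, r.Prime → r ∣ n → X ^ (1 / 8 : ℝ) < r).card : ℕ) : ℝ) ≤
    ((∫ a in (1 / 8 : ℝ)..(0.2495 : ℝ), 8 / cu (4 * (0.4995 - a))) +
      (∫ a in (0.2495 : ℝ)..(0.435 : ℝ), 2 / (0.4995 - a)) + ε) * l / Real.log X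

/-- AV10: the numerical part -/
def NumInt : Prop :=
  (∫ a in (1 / 16 : ℝ)..(0.0999 : ℝ), 1 / (cu 2 * a ^ 2)) ≤ 3.72 ∧
  (∫ a in (0.0999 : ℝ)..(1 / 8 : ℝ), 1 / (cu ((0.4995 - a) / (2 * a)) * a ^ 2)) ≤ 1.35 ∧
  (∫ a in (1 / 8 : ℝ)..(0.2495 : ℝ), 8 / cu (4 * (0.4995 - a))) ≤ 0.85 ∧
  (∫ a in (0.2495 : ℝ)..(0.435 : ℝ), 2 / (0.4995 - a)) ≤ 2.72

open Classical in
/-- AV9: availability -/
def Avail : Prop :=
  ∃ c : ℝ, 0 < c ∧ ∃ X₀ : ℕ, ∀ x h : ℕ, X₀ ≤ x → (x : ℝ) ^ (1 / 2 - 1 / 10000 : ℝ) ≤ h →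
    (h : ℝ) ≤ (x : ℝ) ^ (1 / 2 : ℝ) →
    c * h / Real.log x ≤ (((Finset.Ico x (x + h)).filter (fun n => Squarefree n ∧
      ∃ q m : ℕ, q.Prime ∧ n = q * m ∧ (x : ℝ) ^ (0.435 : ℝ) ≤ q ∧
        ∀ p : ℕ, p.Prime → p ∣ m → (x : ℝ) ^ (0.125 : ℝ) ≤ p)).card : ℝ)

end Pool.Agent.Helper40.AV
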