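import Pool.Agent.Helper40.AV.AvailF
import Pool.Agent.Helper4.QRH.Squares
import Pool.Agent.Helper7.AV.GGlow
import Pool.Agent.Helper14.AV.Buch
import Pool.Agent.Helper30.AV.Rankin
import Pool.Agent.Helper33.AV.PrimeInt
import Pool.Agent.Helper51.AV.GammaNum
import Pool.Agent.Helper53.AV.SelbergP
import Pool.Agent.Helper59.AV.NumInt
import Pool.Agent.Helper61.AV.TopUp
import Pool.Agent.Helper73.AV.MidUp
import Pool.Agent.Helper82.AV.RoughQ

/-! Project AV: availability, up to Mertens' third theorem. -/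

set_option autoImplicit false

namespace Pool.Agent.Helper40.AV

theorem lowerS_of (hM : Mertens3) : LowerS :=
  lowerS Pool.Agent.Helper82.AV.roughQ hM Pool.Agent.Helper51.AV.gammaNum Helper53AV.selbergP
    Pool.Agent.Helper30.AV.gGrankin Pool.Agent.Helper14.AV.buchstab
    Pool.Agent.Helper14.AV.telescope Pool.Agent.Helper33.AV.primeInt

theorem midUp : MidUp :=
  Pool.Agent.Helper73.AV.midUp Helper53AV.selbergP Pool.Agent.Helper7.AV.gglow
    Pool.Agent.Helper33.AV.primeInt

theorem topUp : TopUp :=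
  Pool.Agent.Helper61.AV.topUp Helper53AV.selbergP Pool.Agent.Helper7.AV.gglow
    Pool.Agent.Helper7.AV.ggtriv Pool.Agent.Helper33.AV.primeInt

theorem avail_of_mertens (hM : Mertens3) : Avail :=
  avail_of (lowerS_of hM) Pool.Agent.Helper14.AV.buchstab midUp topUp
    Pool.Agent.Helper59.AV.numInt Pool.Agent.Helper51.AV.gammaNum Pool.Agent.Helper4.QRH.squares

end Pool.Agent.Helper40.AV
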