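import Pool.Agent.Helper40.AV.Base
import Pool.Agent.Helper40.AV.St2

/-! Project AV, part 2: LS3, lower bound at level `12`. -/

set_option autoImplicit false

open Filter Topology

namespace Pool.Agent.Helper40.AV

open Pool.Agent.Helper44 (primesUpTo mem_primesUpTo)

/-- the error factor -/
noncomputable def eb (a : ℝ) : ℝ := Real.exp (5.2 - 11.9 / a)

theorem exp_num2 : Real.exp (-6.7) ≤ 0.00124 := by
  have h1 : (810 : ℝ) ≤ Real.exp 6.7 := by
    refine le_trans ?_ (Real.sum_le_exp_of_nonneg (by norm_num) 24)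
    norm_num [Finset.sum_range_succ, Nat.factorial]
  rw [Real.exp_neg]
  calc (Real.exp 6.7)⁻¹ ≤ (810 : ℝ)⁻¹ := inv_anti₀ (by norm_num) h1
    _ ≤ 0.00124 := by norm_num

theorem eb_le {a : ℝ} (ha : 0 < a) (ha' : a ≤ 1) : eb a ≤ 0.00124 := by
  refine le_trans ?_ exp_num2
  unfold eb
  apply Real.exp_le_exp.2
  have : 11.9 ≤ 11.9 / a := by
    rw [le_div_iff₀ ha]
    nlinarith
  linarith

theorem eb_pos (a : ℝ) : 0 < eb a := Real.exp_pos _

/-- the integral of the error -/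
theorem int_eb {ω : ℝ} (hω : 0 < ω) (hω' : ω ≤ 1) :
    ∫ a in ω..(1 : ℝ), (eb a / a) / a ≤ 0.00011 := by
  have hderiv : ∀ a ∈ Set.uIcc ω (1 : ℝ), HasDerivAt (fun a => eb a / 11.9) ((eb a / a) / a) a := by
    intro a ha
    rw [Set.uIcc_of_le hω'] at ha
    have ha0 : 0 < a := hω.trans_le ha.1
    have h1 : HasDerivAt (fun a : ℝ => 5.2 - 11.9 / a) (11.9 / a ^ 2) a := by
      have h2 := (hasDerivAt_inv ha0.ne').const_mul (11.9 : ℝ)
      have h3 := h2.const_sub (5.2 : ℝ)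
      refine (h3.congr_deriv ?_).congr_of_eventuallyEq ?_
      · field_simp
      · filter_upwards with x
        rw [div_eq_mul_inv]
    have h4 := h1.exp.div_const (11.9 : ℝ)
    refine h4.congr_deriv ?_
    unfold eb
    field_simp
  have hint : IntervalIntegrable (fun a => (eb a / a) / a) MeasureTheory.volume ω (1 : ℝ) := by
    apply ContinuousOn.intervalIntegrable
    rw [Set.uIcc_of_le hω']
    intro a ha
    have ha0 : a ≠ 0 := (hω.trans_le ha.1).ne'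
    apply ContinuousAt.continuousWithinAt
    unfold eb
    fun_prop (disch := assumption)
  rw [intervalIntegral.integral_eq_sub_of_hasDerivAt hderiv hint]
  have h1 := eb_le (a := 1) (by norm_num) le_rfl
  have h2 := eb_pos ω
  have h3 : (0 : ℝ) < eb ω / 11.9 := by positivity
  have h4 : eb 1 / 11.9 ≤ 0.00124 / 11.9 := by
    apply div_le_div_of_nonneg_right h1 (by norm_num)
  have h5 : (0.00124 : ℝ) / 11.9 ≤ 0.00011 := by norm_num
  linarith

open Classical in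
/-- the bound for one prime -/
theorem np_le2 (hS : SelbergP) {z₀ : ℝ}
    (hG : ∀ z u : ℝ, z₀ ≤ z → 0 ≤ u → 1 - Real.exp (4.2 - 2 * u) ≤ VV z * GG z (z ^ u))
    {X : ℝ} (hX : 1 < X) {ω : ℝ} (hω : 0 < ω) (hz₀ : z₀ ≤ X ^ ω - 1 / 2)
    (hV : ∀ t : ℝ, X ^ ω ≤ t → VV (t - 1 / 2) * Real.log t ≤ 0.572)
    {y l p : ℕ} (hl : X ^ (12 : ℝ) ≤ l) (hp : p ∈ PI (X ^ ω) X) :
    ((((Finset.Ico y (y + l)).filter fun n => p ∣ n ∧
        ∀ r : ℕ, r.Prime → r ∣ n → (p : ℝ) - 1 / 2 < r).card : ℕ) : ℝ) ≤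
      l * (1 + X ^ (-1 : ℝ)) * (VV ((p : ℝ) - 1 / 2) / p) +
      l * (1 + X ^ (-1 : ℝ)) * (0.6095 / Real.log X) *
        ((1 : ℝ) / p * (eb (Real.log p / Real.log X) / (Real.log p / Real.log X))) +
      X ^ (11.9 : ℝ) * ((1 : ℝ) / p) := by
  have hX0 : 0 < X := by linarith
  have hL : 0 < Real.log X := Real.log_pos hX
  have hXω : 1 < X ^ ω := Real.one_lt_rpow hX hω
  obtain ⟨hpp, hp1, hp2⟩ := (mem_PI hX0.le).1 hp
  have hp0 : (0 : ℝ) < p := by exact_mod_cast hpp.pos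
  have hp2' : (2 : ℝ) ≤ p := by exact_mod_cast hpp.two_le
  set a : ℝ := Real.log p / Real.log X with ha
  have hlogp : Real.log p = a * Real.log X := by
    rw [ha]
    field_simp
  have ha0 : 0 < a := div_pos (Real.log_pos (by linarith)) hL
  have ha1 : a ≤ 1 := by
    rw [ha, div_le_iff₀ hL, one_mul]
    exact Real.log_le_log hp0 hp2
  have hpX : (p : ℝ) = X ^ a := by
    rw [← Real.exp_log hp0, hlogp, Real.rpow_def_of_pos hX0, mul_comm]
  set u : ℝ := (11.9 - a) / (2 * a) with hu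
  have hu0 : 0 ≤ u := by
    apply div_nonneg <;> linarith
  set Y : ℝ := X ^ ((11.9 - a) / 2) with hY
  have hY1 : 1 ≤ Y := Real.one_le_rpow hX.le (by linarith)
  have hY2 : Y ^ 2 = X ^ (11.9 : ℝ) * (1 / p) := by
    rw [hY, hpX, ← Real.rpow_natCast, ← Real.rpow_mul hX0.le, one_div, ← Real.rpow_neg hX0.le,
      ← Real.rpow_add hX0]
    congr 1
    push_cast
    ring
  have hYu : Y = (p : ℝ) ^ u := by
    rw [hpX, ← Real.rpow_mul hX0.le, hY]
    congr 1
    rw [hu]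
    field_simp
  have hz1 : z₀ ≤ (p : ℝ) - 1 / 2 := by linarith
  have hGp := hG ((p : ℝ) - 1 / 2) u hz1 hu0
  have hexp : Real.exp (4.2 - 2 * u) = eb a := by
    unfold eb
    congr 1
    rw [hu]
    field_simp
    ring
  rw [hexp] at hGp
  have hGY : GG ((p : ℝ) - 1 / 2) (((p : ℝ) - 1 / 2) ^ u) ≤ GG ((p : ℝ) - 1 / 2) Y := by
    apply gg_mono
    rw [hYu]
    exact Real.rpow_le_rpow (by linarith) (by linarith) hu0
  have hea := eb_le ha0 ha1
  have hea0 := eb_pos a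
  have hVp := vv_pos ((p : ℝ) - 1 / 2)
  have hV1 := vv_le_one ((p : ℝ) - 1 / 2)
  have hGG0 : 0 < GG ((p : ℝ) - 1 / 2) Y := lt_of_lt_of_le one_pos (one_le_gg _ hY1)
  have hmain : 1 - eb a ≤ VV ((p : ℝ) - 1 / 2) * GG ((p : ℝ) - 1 / 2) Y :=
    hGp.trans (mul_le_mul_of_nonneg_left hGY hVp.le)
  -- one over G
  have hinv : 1 / GG ((p : ℝ) - 1 / 2) Y ≤ VV ((p : ℝ) - 1 / 2) * (1 + 1.0655 * eb a) := by
    rw [div_le_iff₀ hGG0]
    have h1 : (1 : ℝ) ≤ (1 - eb a) * (1 + 1.0655 * eb a) := by nlinarith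
    calc (1 : ℝ) ≤ (1 - eb a) * (1 + 1.0655 * eb a) := h1
      _ ≤ (VV ((p : ℝ) - 1 / 2) * GG ((p : ℝ) - 1 / 2) Y) * (1 + 1.0655 * eb a) :=
        mul_le_mul_of_nonneg_right hmain (by positivity)
      _ = _ := by ring
  have hl0 : (0 : ℝ) < l := lt_of_lt_of_le (Real.rpow_pos_of_pos hX0 _) hl
  have hlp : (l : ℝ) / p + 1 ≤ l * (1 + X ^ (-1 : ℝ)) / p := by
    rw [mul_add, mul_one, add_div]
    have h1 : (1 : ℝ) ≤ l * X ^ (-1 : ℝ) / p := by
      rw [le_div_iff₀ hp0, one_mul]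
      calc (p : ℝ) ≤ X := hp2
        _ = X ^ (1 : ℝ) := (Real.rpow_one X).symm
        _ ≤ X ^ (12 + -1 : ℝ) := Real.rpow_le_rpow_of_exponent_le hX.le (by norm_num)
        _ = X ^ (12 : ℝ) * X ^ (-1 : ℝ) := Real.rpow_add hX0 _ _
        _ ≤ l * X ^ (-1 : ℝ) := mul_le_mul_of_nonneg_right hl (Real.rpow_nonneg hX0.le _)
    linarith
  have hVlog := hV p hp1.le
  have hlogp0 : 0 < Real.log p := Real.log_pos (by linarith)
  have hVle : VV ((p : ℝ) - 1 / 2) ≤ 0.572 / (a * Real.log X) := by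
    rw [← hlogp, le_div_iff₀ hlogp0]
    exact hVlog
  refine (hS y l p ((p : ℝ) - 1 / 2) Y hpp.one_le hY1).trans ?_
  rw [hY2]
  have hfac : 0 < l * (1 + X ^ (-1 : ℝ)) / p := by positivity
  have h2 : ((l : ℝ) / p + 1) / GG ((p : ℝ) - 1 / 2) Y ≤
      (l * (1 + X ^ (-1 : ℝ)) / p) * (VV ((p : ℝ) - 1 / 2) * (1 + 1.0655 * eb a)) := by
    rw [div_eq_mul_one_div]
    exact mul_le_mul hlp hinv (by positivity) hfac.le
  have h3 : VV ((p : ℝ) - 1 / 2) * (1.0655 * eb a) ≤ 0.6095 / Real.log X * (eb a / a) := by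
    calc VV ((p : ℝ) - 1 / 2) * (1.0655 * eb a) ≤ 0.572 / (a * Real.log X) * (1.0655 * eb a) :=
          mul_le_mul_of_nonneg_right hVle (by positivity)
      _ = (0.572 * 1.0655) / Real.log X * (eb a / a) := by
        field_simp
      _ ≤ _ := by
        apply mul_le_mul_of_nonneg_right _ (by positivity)
        apply div_le_div_of_nonneg_right _ hL.le
        norm_num
  have h4 : (l * (1 + X ^ (-1 : ℝ)) / p) * (VV ((p : ℝ) - 1 / 2) * (1 + 1.0655 * eb a)) ≤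
      l * (1 + X ^ (-1 : ℝ)) * (VV ((p : ℝ) - 1 / 2) / p) +
      l * (1 + X ^ (-1 : ℝ)) * (0.6095 / Real.log X) * ((1 : ℝ) / p * (eb a / a)) := by
    have h5 := mul_le_mul_of_nonneg_left h3 hfac.le
    calc (l * (1 + X ^ (-1 : ℝ)) / p) * (VV ((p : ℝ) - 1 / 2) * (1 + 1.0655 * eb a))
        = l * (1 + X ^ (-1 : ℝ)) * (VV ((p : ℝ) - 1 / 2) / p) +
          (l * (1 + X ^ (-1 : ℝ)) / p) * (VV ((p : ℝ) - 1 / 2) * (1.0655 * eb a)) := by ring
      _ ≤ l * (1 + X ^ (-1 : ℝ)) * (VV ((p : ℝ) - 1 / 2) / p) +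
          (l * (1 + X ^ (-1 : ℝ)) / p) * (0.6095 / Real.log X * (eb a / a)) := by linarith
      _ = _ := by ring
  linarith

open Classical in
theorem tailLo (hR : RoughQ) (hM : Mertens3) (hN : GammaNum) (hS : SelbergP) (hG : GGrankin)
    (hB : Buchstab) (hT : Telescope) (hP : PrimeInt) : TailLo := by
  intro ε hε
  set γ₀ : ℝ := Real.exp (-Real.eulerMascheroniConstant) with hγ₀
  have hγ1 : γ₀ ≤ 0.57 := hN.2
  have hγ2 : 0.557 ≤ γ₀ := hN.1
  obtain ⟨ε₁, K, zR, hε₁, hK, hεK, hRough⟩ := hR (ε / 64) (by positivity)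
  obtain ⟨z₀, hz₀2, hG'⟩ := hG
  set ω : ℝ := min (1 / K) 1 with hω
  have hK0 : 0 < K := by linarith
  have hω0 : 0 < ω := lt_min (by positivity) (by norm_num)
  have hω1 : ω ≤ 1 := min_le_right _ _
  have hωK : ω * K ≤ 1 := by
    have := min_le_left (1 / K) (1 : ℝ)
    rw [← hω, le_div_iff₀ hK0] at this
    exact this
  have hωinv : 1 / ω ≤ 2 * K := by
    rw [div_le_iff₀ hω0, hω]
    rcases min_choice (1 / K) (1 : ℝ) with h | h <;> rw [h]
    · field_simp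
      norm_num
    · linarith
  have hε₁ω : ε₁ / ω ≤ ε / 32 := by
    calc ε₁ / ω = ε₁ * (1 / ω) := by ring
      _ ≤ ε₁ * (2 * K) := mul_le_mul_of_nonneg_left hωinv hε₁.le
      _ = 2 * (ε₁ * K) := by ring
      _ ≤ 2 * (ε / 64) := by linarith
      _ = ε / 32 := by ring
  -- the integrals
  set f : ℝ → ℝ := fun a => eb a / a with hf
  have hfc : ContinuousOn f (Set.Icc ω 1) := by
    intro a ha
    have ha0 : a ≠ 0 := (hω0.trans_le ha.1).ne'
    apply ContinuousAt.continuousWithinAt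
    simp only [hf]
    unfold eb
    fun_prop (disch := assumption)
  have hI := hP ω 1 f hω0 hω1 hfc
  have hI' : ∫ a in ω..(1 : ℝ), f a / a ≤ 0.00011 := int_eb hω0 hω1
  have hJ := hP ω 1 (fun _ => 1) hω0 hω1 continuousOn_const
  simp only [Real.rpow_one] at hI hJ
  set C₁ : ℝ := (∫ a in ω..(1 : ℝ), 1 / a) + 1 with hC₁
  -- eventual conditions
  have e1 : ∀ᶠ X : ℝ in atTop, 1 < X := eventually_gt_atTop 1
  have tω := tendsto_rpow_top hω0
  have e2 : ∀ᶠ X : ℝ in atTop, zR ≤ X ^ ω := tω.eventually_ge_atTop zR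
  have e3 : ∀ᶠ X : ℝ in atTop, z₀ + 1 / 2 ≤ X ^ ω := tω.eventually_ge_atTop _
  have e4 : ∀ᶠ X : ℝ in atTop, ∀ t : ℝ, X ^ ω ≤ t → VV (t - 1 / 2) * Real.log t ≤ 0.572 := by
    have h1 := (mertens3_shift hM).eventually_lt_const (show γ₀ < 0.572 by linarith)
    obtain ⟨T, hT'⟩ := eventually_atTop.1 h1
    filter_upwards [tω.eventually_ge_atTop T] with X hX t ht
    exact (hT' t (hX.trans ht)).le
  have e5 : ∀ᶠ X : ℝ in atTop, VV (X ^ ω) * Real.log (X ^ ω) ≤ 0.572 := by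
    have h1 := (hM.comp tω).eventually_lt_const (show γ₀ < 0.572 by linarith)
    filter_upwards [h1] with X hX
    exact hX.le
  have e6 : ∀ᶠ X : ℝ in atTop, 0.556 ≤ VV X * Real.log X := by
    have h1 := hM.eventually_const_lt (show (0.556 : ℝ) < γ₀ by linarith)
    filter_upwards [h1] with X hX
    exact hX.le
  have e7 := hI.eventually_lt_const (show (∫ a in ω..(1 : ℝ), f a / a) < 0.00011 + ε / 16 by
    linarith)
  have e8 := hJ.eventually_lt_const (show (∫ a in ω..(1 : ℝ), (1 : ℝ) / a) < C₁ by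
    rw [hC₁]; linarith)
  have e9 : ∀ᶠ X : ℝ in atTop, X ^ (11.9 : ℝ) * (|C₁| * Real.log X) ≤ ε / 16 * X ^ (12 : ℝ) := by
    have h1 := isLittleO_log_rpow_atTop (show (0 : ℝ) < 0.1 by norm_num)
    have h2 := h1.def (show 0 < ε / (16 * (|C₁| + 1)) by positivity)
    filter_upwards [h2, eventually_gt_atTop (1 : ℝ)] with X hX hX1
    have hX0 : 0 < X := by linarith
    rw [Real.norm_of_nonneg (Real.log_nonneg hX1.le),
      Real.norm_of_nonneg (Real.rpow_nonneg hX0.le _)] at hX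
    have h3 : X ^ (12 : ℝ) = X ^ (11.9 : ℝ) * X ^ (0.1 : ℝ) := by
      rw [← Real.rpow_add hX0]
      norm_num
    rw [h3]
    have h4 : |C₁| * Real.log X ≤ ε / 16 * X ^ (0.1 : ℝ) := by
      calc |C₁| * Real.log X ≤ (|C₁| + 1) * (ε / (16 * (|C₁| + 1)) * X ^ (0.1 : ℝ)) := by
            apply mul_le_mul (by linarith) hX (Real.log_nonneg hX1.le) (by positivity)
        _ = ε / 16 * X ^ (0.1 : ℝ) := by
            field_simp
    calc X ^ (11.9 : ℝ) * (|C₁| * Real.log X) ≤ X ^ (11.9 : ℝ) * (ε / 16 * X ^ (0.1 : ℝ)) :=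
          mul_le_mul_of_nonneg_left h4 (Real.rpow_nonneg hX0.le _)
      _ = _ := by ring
  have e10 : ∀ᶠ X : ℝ in atTop, X ^ (-1 : ℝ) * (0.572 / ω + 1 + ε) ≤ ε / 16 := by
    have h1 : Tendsto (fun X : ℝ => X ^ (-1 : ℝ) * (0.572 / ω + 1 + ε)) atTop
        (𝓝 (0 * (0.572 / ω + 1 + ε))) :=
      (tendsto_rpow_neg_atTop (show (0 : ℝ) < 1 by norm_num)).mul_const _
    rw [zero_mul] at h1
    filter_upwards [h1.eventually_lt_const (show (0 : ℝ) < ε / 16 by positivity)] with X hX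
    exact hX.le
  obtain ⟨X₀, hX₀⟩ := eventually_atTop.1
    (e1.and (e2.and (e3.and (e4.and (e5.and (e6.and (e7.and (e8.and (e9.and e10)))))))))
  refine ⟨X₀, fun X hX y l hl => ?_⟩
  obtain ⟨h1, h2, h3, h4, h5, h6, h7, h8, h9, h10⟩ := hX₀ X hX
  have hX0 : 0 < X := by linarith
  have hL : 0 < Real.log X := Real.log_pos h1
  have hl0 : (0 : ℝ) < l := lt_of_lt_of_le (Real.rpow_pos_of_pos hX0 _) hl
  set δ : ℝ := X ^ (-1 : ℝ) with hδ
  have hδ0 : 0 < δ := Real.rpow_pos_of_pos hX0 _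
  set w : ℝ := X ^ ω with hw
  have hw1 : 1 ≤ w := Real.one_le_rpow h1.le hω0.le
  have hwz : w ≤ X := by
    calc w ≤ X ^ (1 : ℝ) := Real.rpow_le_rpow_of_exponent_le h1.le hω1
      _ = X := Real.rpow_one X
  -- fundamental lemma
  have hFL : (1 - ε₁) * l * VV w ≤ (RS y l w).card := by
    refine hRough w h2 y l ?_
    rw [hw, ← Real.rpow_mul hX0.le]
    exact (Real.rpow_le_rpow_of_exponent_le h1.le (hωK.trans (by norm_num))).trans hl
  have hBu := hB y l w X hw1 hwz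
  have hTe := hT w X hw1 hwz
  set S7 : ℝ := ∑ p ∈ PI w X, (1 : ℝ) / p * f (Real.log p / Real.log X) with hS7
  set S8 : ℝ := ∑ p ∈ PI w X, (1 : ℝ) / p * 1 with hS8
  have hS7n : 0 ≤ S7 := by
    rw [hS7]
    refine Finset.sum_nonneg fun p hp => ?_
    obtain ⟨hpp, hp1, hp2⟩ := (mem_PI (by linarith)).1 hp
    have h11 : (1 : ℝ) ≤ p := by exact_mod_cast hpp.one_le
    have h12 := eb_pos (Real.log p / Real.log X)
    have h13 : 0 ≤ Real.log p := Real.log_nonneg h11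
    simp only [hf]
    positivity
  have hsum : ∑ p ∈ PI w X, ((((Finset.Ico y (y + l)).filter fun n => p ∣ n ∧
        ∀ r : ℕ, r.Prime → r ∣ n → (p : ℝ) - 1 / 2 < r).card : ℕ) : ℝ) ≤
      l * (1 + δ) * (VV w - VV X) + l * (1 + δ) * (0.6095 / Real.log X) * S7 +
        X ^ (11.9 : ℝ) * S8 := by
    rw [hTe, hS7, hS8, Finset.mul_sum, Finset.mul_sum, Finset.mul_sum, ← Finset.sum_add_distrib,
      ← Finset.sum_add_distrib]
    refine Finset.sum_le_sum fun p hp => ?_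
    have := np_le2 hS hG' h1 hω0 (by linarith) h4 (y := y) hl hp
    rw [mul_one]
    exact this
  have hVw : VV w * Real.log X ≤ 0.572 / ω := by
    rw [le_div_iff₀ hω0]
    rw [hw, Real.log_rpow hX0] at h5
    rw [hw]
    linarith
  have hVw0 := vv_pos w
  have hVz0 := vv_pos X
  have h8' : X ^ (11.9 : ℝ) * S8 * Real.log X ≤ ε / 16 * l := by
    have h11 : S8 ≤ |C₁| := h8.le.trans (le_abs_self _)
    calc X ^ (11.9 : ℝ) * S8 * Real.log X = X ^ (11.9 : ℝ) * (S8 * Real.log X) := by ring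
      _ ≤ X ^ (11.9 : ℝ) * (|C₁| * Real.log X) := by
        apply mul_le_mul_of_nonneg_left _ (Real.rpow_nonneg hX0.le _)
        exact mul_le_mul_of_nonneg_right h11 hL.le
      _ ≤ ε / 16 * X ^ (12 : ℝ) := h9
      _ ≤ ε / 16 * l := mul_le_mul_of_nonneg_left hl (by positivity)
  -- collect
  have hcard : (1 - ε₁) * l * VV w - (l * (1 + δ) * (VV w - VV X) +
      l * (1 + δ) * (0.6095 / Real.log X) * S7 + X ^ (11.9 : ℝ) * S8) ≤ (RS y l X).card := by
    linarith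
  have hcard' := mul_le_mul_of_nonneg_right hcard hL.le
  have hexp : ((1 - ε₁) * l * VV w - (l * (1 + δ) * (VV w - VV X) +
      l * (1 + δ) * (0.6095 / Real.log X) * S7 + X ^ (11.9 : ℝ) * S8)) * Real.log X =
      l * ((1 + δ) * (VV X * Real.log X) - ε₁ * (VV w * Real.log X) - δ * (VV w * Real.log X) -
        0.6095 * S7 - δ * (0.6095 * S7)) - X ^ (11.9 : ℝ) * S8 * Real.log X := by
    field_simp
    ring
  rw [hexp] at hcard'
  have k1 : ε₁ * (VV w * Real.log X) ≤ 0.018 * ε := by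
    calc ε₁ * (VV w * Real.log X) ≤ ε₁ * (0.572 / ω) := mul_le_mul_of_nonneg_left hVw hε₁.le
      _ = 0.572 * (ε₁ / ω) := by ring
      _ ≤ 0.572 * (ε / 32) := by linarith
      _ ≤ 0.018 * ε := by linarith
  have k2 : δ * (VV w * Real.log X) + δ * (0.6095 * S7) ≤ ε / 16 := by
    calc δ * (VV w * Real.log X) + δ * (0.6095 * S7) = δ * (VV w * Real.log X + 0.6095 * S7) := by ring
      _ ≤ δ * (0.572 / ω + 1 + ε) := by
        apply mul_le_mul_of_nonneg_left _ hδ0.le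
        have : 0.6095 * S7 ≤ 1 + ε := by
          have h11 : S7 ≤ 0.00011 + ε / 16 := h7.le
          linarith
        linarith
      _ ≤ ε / 16 := h10
  have k3 : 0.6095 * S7 ≤ 0.00007 + ε / 16 := by
    have h11 : S7 ≤ 0.00011 + ε / 16 := h7.le
    linarith
  have k4 : VV X * Real.log X ≤ (1 + δ) * (VV X * Real.log X) := by
    have : 0 ≤ δ * (VV X * Real.log X) := by positivity
    linarith
  have k5 : VV X * Real.log X - 0.00007 - ε * (0.018 + 1 / 16 + 1 / 16) ≤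
      (1 + δ) * (VV X * Real.log X) - ε₁ * (VV w * Real.log X) - δ * (VV w * Real.log X) -
        0.6095 * S7 - δ * (0.6095 * S7) := by linarith
  have k6 := mul_le_mul_of_nonneg_left k5 hl0.le
  have k7 : (0.9998 - ε) * (VV X * Real.log X) ≤
      VV X * Real.log X - 0.00007 - ε * (0.018 + 1 / 16 + 1 / 16) - ε / 16 := by
    nlinarith [h6, hε]
  have k8 := mul_le_mul_of_nonneg_left k7 hl0.le
  have k9 : (0.9998 - ε) * l * VV X * Real.log X ≤ (RS y l X).card * Real.log X := by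
    linarith
  exact le_of_mul_le_mul_right k9 hL

end Pool.Agent.Helper40.AV
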