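import Pool.Agent.Helper40.AV.Avail2
import Pool.Agent.Helper40.AV.TailLo
import Pool.Agent.Helper40.AV.Main
import Pool.Agent.Helper55.AV.SelUp
import Pool.Agent.Helper5.AV.TailUp
import Pool.Agent.Helper5.AV.StepLo
import Pool.Agent.Helper71.AV.StepUp
import Pool.Agent.Helper59.AV.Tab
import Pool.Agent.Helper59.AV.NumInt2
import Pool.Agent.Helper85.AV.TopUp2
import Pool.Agent.Helper9.AV.Mertens3

/-! Project AV: availability, part 2. -/

set_option autoImplicit false

namespace Pool.Agent.Helper40.AV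

theorem tailLo' : TailLo :=
  tailLo Pool.Agent.Helper82.AV.roughQ Pool.Agent.Helper9.AV.mertens3
    Pool.Agent.Helper51.AV.gammaNum Helper53AV.selbergP
    Pool.Agent.Helper30.AV.gGrankin Pool.Agent.Helper14.AV.buchstab
    Pool.Agent.Helper14.AV.telescope Pool.Agent.Helper33.AV.primeInt

theorem selUp' : SelUp :=
  Pool.Agent.Helper55.AV.selUp Helper53AV.selbergP Pool.Agent.Helper9.AV.mertens3
    Pool.Agent.Helper7.AV.ggtriv Pool.Agent.Helper7.AV.gglow

theorem tab : Tab :=
  Pool.Agent.Helper59.AV.Tab.tab_of selUp' Pool.Agent.Helper5.AV.tailUp tailLo'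
    (Pool.Agent.Helper5.AV.stepLo Pool.Agent.Helper9.AV.mertens3)
    (Pool.Agent.Helper71.AV.stepUp Pool.Agent.Helper9.AV.mertens3)

theorem topUp2 : TopUp2 :=
  Pool.Agent.Helper85.AV.topUp2 Helper53AV.selbergP Pool.Agent.Helper7.AV.gglow
    Pool.Agent.Helper7.AV.ggtriv Pool.Agent.Helper33.AV.primeInt

theorem avail2 : Avail2 :=
  avail2_of tab Pool.Agent.Helper9.AV.mertens3 topUp2 Pool.Agent.Helper59.AV.numInt2
    Pool.Agent.Helper51.AV.gammaNum Pool.Agent.Helper4.QRH.squares

end Pool.Agent.Helper40.AV
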