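import Pool.Agent.Helper40.AV.Tab64
import Pool.Agent.Helper40.AV.F3

/-! The linear sieve lower bound near `s = 2`, sharper. -/

set_option autoImplicit false

open Filter Topology

namespace Pool.Agent.Helper40.AV.T16

open Pool.Agent.Helper40.AV
open Pool.Agent.Helper59.AV.Tab (tot tot_eq ceil_div upb_mono lob_mono lob_zero)

attribute [local irreducible] F0 f0 lo up iter

/-- near `s = 2` -/
theorem lob_204 : LoB 2.04 0.0555 := by
  have hE : Real.exp Real.eulerMascheroniConstant ≤ 1.782 := exp_gamma_le
  have hE0 := Real.exp_pos Real.eulerMascheroniConstant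
  obtain ⟨hUT, -⟩ := tables 9
  have hfin := final9
  rw [suff_getD] at hfin
  generalize (iter 9).1 = F at hUT hfin
  -- the partition
  set L : ℝ := Real.log 2 - Real.log 1.04 with hL
  have hLu : L ≤ 0.654 := by
    have h1 := Real.log_two_lt_d9
    have h2 := Real.le_log_one_add_of_nonneg (show (0 : ℝ) ≤ 0.04 by norm_num)
    norm_num at h2
    have : Real.log 1.04 = Real.log (26 / 25) := by norm_num
    linarith
  have hL0 : 0 ≤ L := by
    have : Real.log 1.04 ≤ Real.log 2 := Real.log_le_log (by norm_num) (by norm_num)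
    linarith
  set r : ℝ := Real.exp (L / 1000) with hr
  have hr1 : 1 ≤ r := Real.one_le_exp (by positivity)
  have hrN : 1.04 * r ^ 1000 = 2 := by
    rw [hr, ← Real.exp_nat_mul]
    push_cast
    rw [mul_div_cancel₀ _ (by norm_num : (1000 : ℝ) ≠ 0), hL, Real.exp_sub,
      Real.exp_log (by norm_num), Real.exp_log (by norm_num)]
    norm_num
  have hr2 : 1000 * (r - 1) ≤ L + L ^ 2 / 1000 := by
    have h1 := Real.abs_exp_sub_one_sub_id_le (x := L / 1000) (by
      rw [abs_of_nonneg (by positivity)]
      linarith)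
    have h2 := (abs_le.1 h1).2
    rw [← hr] at h2
    have : (L / 1000) ^ 2 = L ^ 2 / 1000 / 1000 := by ring
    rw [this] at h2
    linarith
  have hrj : ∀ j : ℕ, j ≤ 1000 → 1.04 * r ^ j ≤ 2 := by
    intro j hj
    rw [← hrN]
    exact mul_le_mul_of_nonneg_left (pow_le_pow_right₀ hr1 hj) (by norm_num)
  have hrj0 : ∀ j : ℕ, 1 ≤ r ^ j := fun j => one_le_pow₀ hr1
  have hr1' : 1 < r := by
    rcases hr1.eq_or_lt with h | h
    · exfalso
      rw [← h] at hrN
      norm_num at hrN
    · exact h
  set C : ℝ := 2 * Real.exp Real.eulerMascheroniConstant with hC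
  have hLo := Pool.Agent.Helper5.AV.stepLo Pool.Agent.Helper9.AV.mertens3
  have key := hLo 2.04 16 0.99999 1832
    (fun j => if j < 1000 then 1 + 1.04 * r ^ j else 3 + ((j : ℝ) - 1000) / 64)
    (fun j => if j < 1000 then C / (1.04 * r ^ j) else
      ((F.getD (64 + (j - 1000)) 0 : ℕ) : ℝ) / 10000000)
    (by norm_num) (by norm_num) (by norm_num) (fun j hj => by
      by_cases h1 : j + 1 < 1000
      · rw [if_pos (by omega : j < 1000), if_pos h1]
        have : r ^ j < r ^ (j + 1) := by
          rw [pow_succ]
          exact lt_mul_of_one_lt_right (by linarith [hrj0 j]) hr1'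
        linarith
      · rw [if_neg h1]
        by_cases h2 : j < 1000
        · have hj9 : j = 999 := by omega
          subst hj9
          rw [if_pos h2]
          have : 1.04 * r ^ 999 < 1.04 * r ^ 1000 := by
            apply mul_lt_mul_of_pos_left _ (by norm_num)
            rw [pow_succ r 999]
            exact lt_mul_of_one_lt_right (by linarith [hrj0 999]) hr1'
          push_cast
          linarith
        · rw [if_neg h2]
          push_cast
          linarith)
    (fun j hj => by
      by_cases h2 : j < 1000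
      · simp only [if_pos h2]
        have h3 := hrj j h2.le
        have h4 := hrj0 j
        have h5 := selUp'.1 (1.04 * r ^ j) (by linarith) h3
        rw [add_sub_cancel_left]
        exact h5
      · simp only [if_neg h2]
        have h3 := hUT.2 (64 + (j - 1000)) (by omega)
        have e : (((64 + (64 + (j - 1000)) : ℕ) : ℝ) / 64) = 3 + ((j : ℝ) - 1000) / 64 - 1 := by
          push_cast [Nat.cast_sub (not_lt.1 h2)]
          ring
        rw [e] at h3
        exact h3) tailLo16
  refine lob_mono key ?_
  -- the sum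
  have hsum : ∑ i ∈ Finset.range 1832,
      ((if i + 1 < 1000 then 1 + 1.04 * r ^ (i + 1) else 3 + (((i + 1 : ℕ) : ℝ) - 1000) / 64) -
        (if i < 1000 then 1 + 1.04 * r ^ i else 3 + ((i : ℝ) - 1000) / 64)) *
      (if i < 1000 then C / (1.04 * r ^ i) else
        ((F.getD (64 + (i - 1000)) 0 : ℕ) : ℝ) / 10000000) =
      1000 * (C * (r - 1)) + (tot F 64 : ℝ) / 640000000 := by
    have hsplit : ∀ g : ℕ → ℝ, ∑ i ∈ Finset.range 1832, g i =
        ∑ i ∈ Finset.range 1000, g i + ∑ j ∈ Finset.range 832, g (1000 + j) :=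
      fun g => Finset.sum_range_add g 1000 832
    rw [hsplit]
    refine congrArg₂ (· + ·) ?_ ?_
    · have : ∀ i ∈ Finset.range 1000,
          ((if i + 1 < 1000 then 1 + 1.04 * r ^ (i + 1) else
            3 + (((i + 1 : ℕ) : ℝ) - 1000) / 64) -
          (if i < 1000 then 1 + 1.04 * r ^ i else 3 + ((i : ℝ) - 1000) / 64)) *
          (if i < 1000 then C / (1.04 * r ^ i) else
            ((F.getD (64 + (i - 1000)) 0 : ℕ) : ℝ) / 10000000) = C * (r - 1) := by
        intro i hi
        rw [Finset.mem_range] at hi
        have h4 := hrj0 i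
        have h5 : (0 : ℝ) < r ^ i := by linarith
        rw [if_pos hi, if_pos hi]
        have h6 : (if i + 1 < 1000 then 1 + 1.04 * r ^ (i + 1) else
            3 + (((i + 1 : ℕ) : ℝ) - 1000) / 64) = 1 + 1.04 * r ^ (i + 1) := by
          by_cases h1 : i + 1 < 1000
          · rw [if_pos h1]
          · have hi9 : i = 999 := by omega
            subst hi9
            rw [if_neg h1, show (999 + 1 : ℕ) = 1000 by norm_num, hrN]
            norm_num
        rw [h6, pow_succ]
        field_simp
        ring
      rw [Finset.sum_congr rfl this, Finset.sum_const, Finset.card_range, nsmul_eq_mul]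
      norm_num
    · rw [tot_eq F 832 64 (by rw [hUT.1]), Nat.cast_sum, Finset.sum_div]
      apply Finset.sum_congr rfl
      intro j _
      rw [if_neg (by omega), if_neg (by omega), if_neg (by omega),
        show 64 + (1000 + j - 1000) = 64 + j by omega]
      push_cast
      ring
  rw [hsum]
  have h7 : C ≤ 3.564 := by rw [hC]; linarith
  have h8 : (tot F 64 : ℝ) ≤ 8674400000 := by exact_mod_cast hfin
  have h9 : 1000 * (C * (r - 1)) ≤ 3.564 * (0.654 + 0.654 ^ 2 / 1000) := by
    calc 1000 * (C * (r - 1)) = C * (1000 * (r - 1)) := by ring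
      _ ≤ 3.564 * (0.654 + 0.654 ^ 2 / 1000) := by
        apply mul_le_mul h7 _ (by linarith) (by norm_num)
        refine hr2.trans ?_
        have : L ^ 2 ≤ 0.654 ^ 2 := pow_le_pow_left₀ hL0 hLu 2
        linarith
  have h10 : 1000 * (C * (r - 1)) + (tot F 64 : ℝ) / 640000000 ≤ 15.8862 := by
    have : (tot F 64 : ℝ) / 640000000 ≤ 8674400000 / 640000000 := by gcongr
    norm_num at h9 this ⊢
    linarith
  have : (16 : ℝ) / 2.04 * 0.99999 - 1 / 2.04 *
      (1000 * (C * (r - 1)) + (tot F 64 : ℝ) / 640000000) ≥
      16 / 2.04 * 0.99999 - 1 / 2.04 * 15.8862 := by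
    have : (1 : ℝ) / 2.04 * (1000 * (C * (r - 1)) + (tot F 64 : ℝ) / 640000000) ≤
      1 / 2.04 * 15.8862 := mul_le_mul_of_nonneg_left h10 (by norm_num)
    linarith
  refine le_trans ?_ this
  norm_num


end Pool.Agent.Helper40.AV.T16
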