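import Pool.Agent.Helper40.AV.Fine64

/-! Rough squarefree integers with at most three prime factors in every short interval. -/

set_option autoImplicit false

open Filter Topology

namespace Pool.Agent.Helper40.AV

open Pool.Agent.Helper44 (primesUpTo mem_primesUpTo)

open Classical in
/-- squarefree integers with at most three prime factors, all `> x ^ ζ`, in every interval of
length `x ^ (1/2 - d)` -/
def RoughAvail3 (ζ d : ℝ) : Prop :=
  ∃ c : ℝ, 0 < c ∧ ∃ X₀ : ℕ, ∀ x h : ℕ, X₀ ≤ x → (x : ℝ) ^ (1 / 2 - d : ℝ) ≤ h →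
    (h : ℝ) ≤ (x : ℝ) ^ (1 / 2 : ℝ) →
    c * h / Real.log x ≤ (((Finset.Ico x (x + h)).filter (fun n => Squarefree n ∧
      n.primeFactors.card ≤ 3 ∧ ∀ p : ℕ, p.Prime → p ∣ n → (x : ℝ) ^ ζ < p)).card : ℝ)

/-- four large primes: at least three are small -/
theorem three_small {n : ℕ} {X : ℝ} (hX : 1 < X) (hX2 : 2 ≤ X ^ (0.0002 : ℝ)) (hn0 : n ≠ 0)
    (hn : (n : ℝ) < 2 * X) (hr : ∀ p : ℕ, p.Prime → p ∣ n → X ^ (0.245 : ℝ) < p)
    (h4 : 4 ≤ n.primeFactors.card) :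
    3 ≤ (n.primeFactors.filter fun p : ℕ => (p : ℝ) ≤ X ^ (0.2551 : ℝ)).card := by
  have hX0 : 0 < X := by linarith
  by_contra hcon
  have hcon' : (n.primeFactors.filter fun p : ℕ => (p : ℝ) ≤ X ^ (0.2551 : ℝ)).card ≤ 2 := by omega
  have hsplit := Finset.card_filter_add_card_filter_not (s := n.primeFactors)
    (fun p : ℕ => (p : ℝ) ≤ X ^ (0.2551 : ℝ))
  have h2 : 2 ≤ (n.primeFactors.filter fun p : ℕ => ¬ (p : ℝ) ≤ X ^ (0.2551 : ℝ)).card := by omega
  obtain ⟨T, hT, hTc⟩ := Finset.exists_subset_card_eq h2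
  have hTS : T ⊆ n.primeFactors := hT.trans (Finset.filter_subset _ _)
  have h3 : 2 ≤ (n.primeFactors \ T).card := by
    rw [Finset.card_sdiff_of_subset hTS]
    omega
  obtain ⟨U, hU, hUc⟩ := Finset.exists_subset_card_eq h3
  have hUS : U ⊆ n.primeFactors := hU.trans Finset.sdiff_subset
  have hdis : Disjoint T U := by
    rw [Finset.disjoint_left]
    intro p hp hp'
    exact (Finset.mem_sdiff.1 (hU hp')).2 hp
  have hprod : (∏ p ∈ T, p) * (∏ p ∈ U, p) ∣ n := by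
    rw [← Finset.prod_union hdis]
    exact (Finset.prod_dvd_prod_of_subset _ _ _ (Finset.union_subset hTS hUS)).trans
      (Nat.prod_primeFactors_dvd n)
  have hle : (((∏ p ∈ T, p) * (∏ p ∈ U, p) : ℕ) : ℝ) ≤ n := by
    exact_mod_cast Nat.le_of_dvd (Nat.pos_of_ne_zero hn0) hprod
  have hT1 : (X ^ (0.2551 : ℝ)) ^ 2 ≤ ((∏ p ∈ T, p : ℕ) : ℝ) := by
    push_cast
    rw [← hTc, ← Finset.prod_const]
    refine Finset.prod_le_prod (fun p _ => Real.rpow_nonneg hX0.le _) fun p hp => ?_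
    have := (Finset.mem_filter.1 (hT hp)).2
    exact (not_le.1 this).le
  have hU1 : (X ^ (0.245 : ℝ)) ^ 2 ≤ ((∏ p ∈ U, p : ℕ) : ℝ) := by
    push_cast
    rw [← hUc, ← Finset.prod_const]
    refine Finset.prod_le_prod (fun p _ => Real.rpow_nonneg hX0.le _) fun p hp => ?_
    have hp' := hUS hp
    exact (hr p (Nat.prime_of_mem_primeFactors hp') (Nat.dvd_of_mem_primeFactors hp')).le
  have hmul : (X ^ (0.2551 : ℝ)) ^ 2 * (X ^ (0.245 : ℝ)) ^ 2 = X * X ^ (0.0002 : ℝ) := by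
    rw [← Real.rpow_natCast, ← Real.rpow_natCast, ← Real.rpow_mul hX0.le, ← Real.rpow_mul hX0.le,
      ← Real.rpow_add hX0]
    nth_rewrite 2 [← Real.rpow_one X]
    rw [← Real.rpow_add hX0]
    congr 1
    norm_num
  have h5 : X * X ^ (0.0002 : ℝ) ≤ n := by
    rw [← hmul]
    push_cast at hle
    refine le_trans ?_ hle
    push_cast at hT1 hU1
    exact mul_le_mul hT1 hU1 (by positivity) ((by positivity : (0 : ℝ) ≤ (X ^ (0.2551 : ℝ)) ^ 2).trans hT1)
  have h6 : X * 2 ≤ X * X ^ (0.0002 : ℝ) := mul_le_mul_of_nonneg_left hX2 hX0.le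
  linarith

open Classical in
/-- double counting -/
theorem four_le {x h : ℕ} (hx : 1 < x) (hX2 : (2 : ℝ) ≤ (x : ℝ) ^ (0.0002 : ℝ))
    (hh : h ≤ x) (S : Finset ℕ)
    (hS : S ⊆ (RS x h ((x : ℝ) ^ (0.245 : ℝ))).filter fun n => 4 ≤ n.primeFactors.card) :
    3 * (S.card : ℝ) ≤ ∑ p ∈ PI ((x : ℝ) ^ (0.245 : ℝ)) ((x : ℝ) ^ (0.2551 : ℝ)),
      ((((Finset.Ico x (x + h)).filter fun n => p ∣ n ∧
        ∀ r : ℕ, r.Prime → r ∣ n → (x : ℝ) ^ (0.245 : ℝ) < r).card : ℕ) : ℝ) := by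
  have hx1 : (1 : ℝ) < x := by exact_mod_cast hx
  have hx0 : (0 : ℝ) < x := by linarith
  have key : ∀ n ∈ S, (3 : ℝ) ≤ ∑ p ∈ PI ((x : ℝ) ^ (0.245 : ℝ)) ((x : ℝ) ^ (0.2551 : ℝ)),
      (if p ∣ n then (1 : ℝ) else 0) := by
    intro n hn
    have hn' := hS hn
    rw [Finset.mem_filter, RS, Finset.mem_filter, Finset.mem_Ico] at hn'
    obtain ⟨⟨⟨hn1, hn2⟩, hn3⟩, hn4⟩ := hn'
    have hn0 : n ≠ 0 := by omega
    have hn5 : (n : ℝ) < 2 * x := by
      have : n < 2 * x := by omega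
      exact_mod_cast this
    have h1 := three_small hx1 hX2 hn0 hn5 hn3 hn4
    rw [← Finset.sum_filter, Finset.sum_const, nsmul_eq_mul, mul_one]
    have h2 : (n.primeFactors.filter fun p : ℕ => (p : ℝ) ≤ (x : ℝ) ^ (0.2551 : ℝ)) ⊆
        (PI ((x : ℝ) ^ (0.245 : ℝ)) ((x : ℝ) ^ (0.2551 : ℝ))).filter fun p => p ∣ n := by
      intro p hp
      rw [Finset.mem_filter] at hp
      have hpp := Nat.prime_of_mem_primeFactors hp.1
      have hpd := Nat.dvd_of_mem_primeFactors hp.1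
      rw [Finset.mem_filter, mem_PI (Real.rpow_nonneg hx0.le _)]
      exact ⟨⟨hpp, hn3 p hpp hpd, hp.2⟩, hpd⟩
    exact_mod_cast h1.trans (Finset.card_le_card h2)
  calc 3 * (S.card : ℝ) = ∑ _n ∈ S, (3 : ℝ) := by rw [Finset.sum_const, nsmul_eq_mul]; ring
    _ ≤ ∑ n ∈ S, ∑ p ∈ PI ((x : ℝ) ^ (0.245 : ℝ)) ((x : ℝ) ^ (0.2551 : ℝ)),
        (if p ∣ n then (1 : ℝ) else 0) := Finset.sum_le_sum key
    _ = ∑ p ∈ PI ((x : ℝ) ^ (0.245 : ℝ)) ((x : ℝ) ^ (0.2551 : ℝ)),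
        ∑ n ∈ S, (if p ∣ n then (1 : ℝ) else 0) := Finset.sum_comm
    _ ≤ _ := by
        refine Finset.sum_le_sum fun p hp => ?_
        rw [← Finset.sum_filter, Finset.sum_const, nsmul_eq_mul, mul_one]
        have hsub : S.filter (fun n => p ∣ n) ⊆ (Finset.Ico x (x + h)).filter fun n => p ∣ n ∧
            ∀ r : ℕ, r.Prime → r ∣ n → (x : ℝ) ^ (0.245 : ℝ) < r := by
          intro n hn
          rw [Finset.mem_filter] at hn
          have hn' := hS hn.1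
          rw [Finset.mem_filter, RS, Finset.mem_filter] at hn'
          rw [Finset.mem_filter]
          exact ⟨hn'.1.1, hn.2, hn'.1.2⟩
        exact_mod_cast Finset.card_le_card hsub

open Classical in
/-- the sieve bound -/
theorem four_up : ∃ X₀ : ℝ, ∀ X : ℝ, X₀ ≤ X → ∀ y l : ℕ, X ^ (0.4998 : ℝ) ≤ l →
    ∑ p ∈ PI (X ^ (0.245 : ℝ)) (X ^ (0.2551 : ℝ)),
      ((((Finset.Ico y (y + l)).filter fun n => p ∣ n ∧
        ∀ r : ℕ, r.Prime → r ∣ n → X ^ (0.245 : ℝ) < r).card : ℕ) : ℝ) ≤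
      0.34 * (l / Real.log X) := by
  have hS := Helper53AV.selbergP
  have hT := Pool.Agent.Helper7.AV.ggtriv
  have hP := Pool.Agent.Helper33.AV.primeInt 0.245 0.2551 (fun _ => 1) (by norm_num) (by norm_num)
    continuousOn_const
  have hI : ∫ a in (0.245 : ℝ)..(0.2551 : ℝ), (1 : ℝ) / a < 0.0413 := by
    rw [integral_one_div_of_pos (by norm_num) (by norm_num)]
    have h1 : (0.2551 : ℝ) / 0.245 = 2551 / 2450 := by norm_num
    rw [h1]
    have h2 := Real.log_le_sub_one_of_pos (show (0 : ℝ) < 2551 / 2450 by norm_num)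
    norm_num at h2 ⊢
    linarith
  have e1 := hP.eventually_lt_const hI
  have e2 : ∀ᶠ X : ℝ in atTop, X ^ (0.2551 : ℝ) ≤ 0.0001 * X ^ (0.4998 : ℝ) := by
    have h1 := (tendsto_rpow_top (show (0 : ℝ) < 0.2447 by norm_num)).eventually_ge_atTop 10000
    filter_upwards [h1, eventually_gt_atTop (1 : ℝ)] with X hX hX1
    have hX0 : 0 < X := by linarith
    have h2 : X ^ (0.4998 : ℝ) = X ^ (0.2551 : ℝ) * X ^ (0.2447 : ℝ) := by
      rw [← Real.rpow_add hX0]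
      norm_num
    rw [h2]
    have h3 : 0 ≤ X ^ (0.2551 : ℝ) := Real.rpow_nonneg hX0.le _
    nlinarith
  have e3 : ∀ᶠ X : ℝ in atTop, X ^ (0.4995 : ℝ) * Real.log X ≤ 0.0001 * X ^ (0.4998 : ℝ) := by
    have h1 := (isLittleO_log_rpow_atTop (show (0 : ℝ) < 0.0003 by norm_num)).def
      (show (0 : ℝ) < 0.0001 by norm_num)
    filter_upwards [h1, eventually_gt_atTop (1 : ℝ)] with X hX hX1
    have hX0 : 0 < X := by linarith
    rw [Real.norm_of_nonneg (Real.log_nonneg hX1.le),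
      Real.norm_of_nonneg (Real.rpow_nonneg hX0.le _)] at hX
    have h2 : X ^ (0.4998 : ℝ) = X ^ (0.4995 : ℝ) * X ^ (0.0003 : ℝ) := by
      rw [← Real.rpow_add hX0]
      norm_num
    rw [h2]
    calc X ^ (0.4995 : ℝ) * Real.log X ≤ X ^ (0.4995 : ℝ) * (0.0001 * X ^ (0.0003 : ℝ)) :=
          mul_le_mul_of_nonneg_left hX (Real.rpow_nonneg hX0.le _)
      _ = _ := by ring
  obtain ⟨X₀, hX₀⟩ := eventually_atTop.1 ((e1.and (e2.and e3)).and (eventually_gt_atTop (1 : ℝ)))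
  refine ⟨X₀, fun X hX y l hl => ?_⟩
  obtain ⟨⟨h1, h2, h3⟩, hX1⟩ := hX₀ X hX
  have hX0 : 0 < X := by linarith
  have hL : 0 < Real.log X := Real.log_pos hX1
  have hl0 : (0 : ℝ) < l := lt_of_lt_of_le (Real.rpow_pos_of_pos hX0 _) hl
  have hY1 : 1 ≤ X ^ (0.1222 : ℝ) := Real.one_le_rpow hX1.le (by norm_num)
  have hYz : X ^ (0.1222 : ℝ) ≤ X ^ (0.245 : ℝ) :=
    Real.rpow_le_rpow_of_exponent_le hX1.le (by norm_num)
  have hG := hT (X ^ (0.245 : ℝ)) (X ^ (0.1222 : ℝ)) hY1 hYz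
  rw [Real.log_rpow hX0] at hG
  have hG0 : 0 < 0.1222 * Real.log X := by positivity
  have hd0 : 0 ≤ (l : ℝ) / Real.log X := by positivity
  have hone : ∀ p ∈ PI (X ^ (0.245 : ℝ)) (X ^ (0.2551 : ℝ)),
      ((((Finset.Ico y (y + l)).filter fun n => p ∣ n ∧
        ∀ r : ℕ, r.Prime → r ∣ n → X ^ (0.245 : ℝ) < r).card : ℕ) : ℝ) ≤
      l / (0.1222 * Real.log X) * (1 / p * 1) + (1 / (0.1222 * Real.log X) + X ^ (0.2444 : ℝ)) := by
    intro p hp
    obtain ⟨hpp, -, -⟩ := (mem_PI (Real.rpow_nonneg hX0.le _)).1 hp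
    have hp0 : (0 : ℝ) < p := by exact_mod_cast hpp.pos
    refine (hS y l p (X ^ (0.245 : ℝ)) (X ^ (0.1222 : ℝ)) hpp.one_le hY1).trans ?_
    have h4 : (X ^ (0.1222 : ℝ)) ^ 2 = X ^ (0.2444 : ℝ) := by
      rw [← Real.rpow_natCast, ← Real.rpow_mul hX0.le]
      norm_num
    rw [h4]
    have h5 : ((l : ℝ) / p + 1) / GG (X ^ (0.245 : ℝ)) (X ^ (0.1222 : ℝ)) ≤
        ((l : ℝ) / p + 1) / (0.1222 * Real.log X) :=
      div_le_div_of_nonneg_left (by positivity) hG0 hG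
    have h6 : ((l : ℝ) / p + 1) / (0.1222 * Real.log X) =
        l / (0.1222 * Real.log X) * (1 / p * 1) + 1 / (0.1222 * Real.log X) := by
      field_simp
    linarith
  refine (Finset.sum_le_sum hone).trans ?_
  rw [Finset.sum_add_distrib, ← Finset.mul_sum, Finset.sum_const, nsmul_eq_mul]
  have hcard : ((PI (X ^ (0.245 : ℝ)) (X ^ (0.2551 : ℝ))).card : ℝ) ≤ X ^ (0.2551 : ℝ) := by
    have h4 : PI (X ^ (0.245 : ℝ)) (X ^ (0.2551 : ℝ)) ⊆ Finset.Ioc 0 ⌊X ^ (0.2551 : ℝ)⌋₊ := by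
      intro p hp
      obtain ⟨hpp, -, h5⟩ := (mem_PI (Real.rpow_nonneg hX0.le _)).1 hp
      rw [Finset.mem_Ioc]
      exact ⟨hpp.pos, Nat.le_floor h5⟩
    have h5 := Finset.card_le_card h4
    rw [Nat.card_Ioc] at h5
    have h6 : (((PI (X ^ (0.245 : ℝ)) (X ^ (0.2551 : ℝ))).card : ℕ) : ℝ) ≤
        (⌊X ^ (0.2551 : ℝ)⌋₊ : ℕ) := by exact_mod_cast h5
    exact h6.trans (Nat.floor_le (Real.rpow_nonneg hX0.le _))
  have h7 : (l : ℝ) / (0.1222 * Real.log X) *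
      (∑ p ∈ PI (X ^ (0.245 : ℝ)) (X ^ (0.2551 : ℝ)), (1 : ℝ) / p * 1) ≤
      0.33798 * (l / Real.log X) := by
    calc (l : ℝ) / (0.1222 * Real.log X) *
        (∑ p ∈ PI (X ^ (0.245 : ℝ)) (X ^ (0.2551 : ℝ)), (1 : ℝ) / p * 1) ≤
        (l : ℝ) / (0.1222 * Real.log X) * 0.0413 :=
          mul_le_mul_of_nonneg_left h1.le (by positivity)
      _ = (0.0413 / 0.1222) * (l / Real.log X) := by
          field_simp
      _ ≤ _ := by
          apply mul_le_mul_of_nonneg_right _ (by positivity)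
          norm_num
  have h8 : ((PI (X ^ (0.245 : ℝ)) (X ^ (0.2551 : ℝ))).card : ℝ) *
      (1 / (0.1222 * Real.log X) + X ^ (0.2444 : ℝ)) ≤ 0.001 * (l / Real.log X) := by
    have h9 : (0 : ℝ) ≤ 1 / (0.1222 * Real.log X) + X ^ (0.2444 : ℝ) := by positivity
    refine (mul_le_mul_of_nonneg_right hcard h9).trans ?_
    rw [mul_add]
    have h10 : X ^ (0.2551 : ℝ) * (1 / (0.1222 * Real.log X)) ≤ 0.00082 * (l / Real.log X) +
        0.00001 * (l / Real.log X) := by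
      calc X ^ (0.2551 : ℝ) * (1 / (0.1222 * Real.log X)) ≤
          (0.0001 * l) * (1 / (0.1222 * Real.log X)) := by
            apply mul_le_mul_of_nonneg_right _ (by positivity)
            linarith
        _ = (0.0001 / 0.1222) * (l / Real.log X) := by field_simp
        _ ≤ 0.00083 * (l / Real.log X) := by
            apply mul_le_mul_of_nonneg_right _ (by positivity)
            norm_num
        _ = _ := by ring
    have h11 : X ^ (0.2551 : ℝ) * X ^ (0.2444 : ℝ) ≤ 0.0001 * (l / Real.log X) := by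
      rw [← Real.rpow_add hX0, mul_div_assoc', le_div_iff₀ hL,
        show (0.2551 : ℝ) + 0.2444 = 0.4995 by norm_num]
      linarith
    linarith
  linarith

open Classical in
/-- every interval of length `x ^ (1/2 - 1/5000)` contains many squarefree integers with at most
three prime factors, all of which exceed `x ^ 0.245` -/
theorem roughAvail3_245 : RoughAvail3 0.245 0.0002 := by
  obtain ⟨z₁, hz₁⟩ := T16.lob_204 0.0001 (by norm_num)
  obtain ⟨X4, hX4⟩ := Pool.Agent.Helper4.QRH.squares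
  obtain ⟨X6, hX6⟩ := four_up
  have hM := Pool.Agent.Helper9.AV.mertens3
  have hγ : (0.561 : ℝ) < Real.exp (-Real.eulerMascheroniConstant) := by
    rw [Real.exp_neg]
    calc (0.561 : ℝ) < (1.782 : ℝ)⁻¹ := by norm_num
      _ ≤ _ := inv_anti₀ (Real.exp_pos _) exp_gamma_le
  have tz := tendsto_rpow_top (show (0 : ℝ) < 0.245 by norm_num)
  have e0 : ∀ᶠ x : ℝ in atTop, z₁ ≤ x ^ (0.245 : ℝ) := tz.eventually_ge_atTop z₁
  have e3 : ∀ᶠ x : ℝ in atTop, 0.561 ≤ VV (x ^ (0.245 : ℝ)) * Real.log (x ^ (0.245 : ℝ)) := by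
    have h1 := (hM.comp tz).eventually_const_lt hγ
    filter_upwards [h1] with x hx
    exact hx.le
  have e1 : ∀ᶠ x : ℝ in atTop, 2 / x ^ (0.245 : ℝ) ≤ 0.001 / Real.log x := by
    have h1 := (isLittleO_log_rpow_atTop (show (0 : ℝ) < 0.245 by norm_num)).def
      (show (0 : ℝ) < 0.0005 by norm_num)
    filter_upwards [h1, eventually_gt_atTop (1 : ℝ)] with x hx hx1
    have hx0 : 0 < x := by linarith
    rw [Real.norm_of_nonneg (Real.log_nonneg hx1.le),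
      Real.norm_of_nonneg (Real.rpow_nonneg hx0.le _)] at hx
    rw [div_le_div_iff₀ (Real.rpow_pos_of_pos hx0 _) (Real.log_pos hx1)]
    linarith
  have e2 : ∀ᶠ x : ℝ in atTop, 4 * x ^ (1 / 3 : ℝ) ≤ 0.001 / Real.log x *
      x ^ (1 / 2 - 0.0002 : ℝ) := by
    have h1 := (isLittleO_log_rpow_atTop (show (0 : ℝ) < 1 / 10 by norm_num)).def
      (show (0 : ℝ) < 0.00025 by norm_num)
    filter_upwards [h1, eventually_gt_atTop (1 : ℝ)] with x hx hx1
    have hx0 : 0 < x := by linarith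
    have hL := Real.log_pos hx1
    rw [Real.norm_of_nonneg hL.le, Real.norm_of_nonneg (Real.rpow_nonneg hx0.le _)] at hx
    rw [div_mul_eq_mul_div, le_div_iff₀ hL]
    have h2 : x ^ (1 / 3 : ℝ) * x ^ (1 / 10 : ℝ) ≤ x ^ (1 / 2 - 0.0002 : ℝ) := by
      rw [← Real.rpow_add hx0]
      exact Real.rpow_le_rpow_of_exponent_le hx1.le (by norm_num)
    have h3 : 0 < x ^ (1 / 3 : ℝ) := Real.rpow_pos_of_pos hx0 _
    calc 4 * x ^ (1 / 3 : ℝ) * Real.log x ≤ 4 * x ^ (1 / 3 : ℝ) * (0.00025 * x ^ (1 / 10 : ℝ)) :=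
          mul_le_mul_of_nonneg_left hx (by positivity)
      _ = 0.001 * (x ^ (1 / 3 : ℝ) * x ^ (1 / 10 : ℝ)) := by ring
      _ ≤ _ := mul_le_mul_of_nonneg_left h2 (by norm_num)
  have e4 : ∀ᶠ x : ℝ in atTop, 2 ≤ x ^ (0.0002 : ℝ) :=
    (tendsto_rpow_top (show (0 : ℝ) < 0.0002 by norm_num)).eventually_ge_atTop 2
  obtain ⟨X5, hX5⟩ := eventually_atTop.1 (e0.and (e3.and (e1.and (e2.and e4))))
  refine ⟨0.001, by norm_num, max (max ⌈X6⌉₊ X4) (max ⌈X5⌉₊ 2), ?_⟩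
  intro x h hx hh1 hh2
  have hxX6 : X6 ≤ x := (Nat.le_ceil X6).trans (by exact_mod_cast (by omega : ⌈X6⌉₊ ≤ x))
  have hxX5 : X5 ≤ x := (Nat.le_ceil X5).trans (by exact_mod_cast (by omega : ⌈X5⌉₊ ≤ x))
  have hx2 : 2 ≤ x := by omega
  have hx1 : (1 : ℝ) < x := by exact_mod_cast (by omega : 1 < x)
  have hx0 : (0 : ℝ) < x := by linarith
  have hL : 0 < Real.log x := Real.log_pos hx1
  have hh1' : (x : ℝ) ^ (0.4998 : ℝ) ≤ h :=
    (Real.rpow_le_rpow_of_exponent_le hx1.le (by norm_num)).trans hh1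
  have hhx : h ≤ x := by
    have h1 : (h : ℝ) ≤ x := hh2.trans (by
      calc (x : ℝ) ^ (1 / 2 : ℝ) ≤ (x : ℝ) ^ (1 : ℝ) :=
            Real.rpow_le_rpow_of_exponent_le hx1.le (by norm_num)
        _ = x := Real.rpow_one _)
    exact_mod_cast h1
  obtain ⟨b0, b3, b1, b2, b4⟩ := hX5 x hxX5
  have a1 := hz₁ ((x : ℝ) ^ (0.245 : ℝ)) b0 x h (by
    rw [← Real.rpow_mul hx0.le]
    exact (Real.rpow_le_rpow_of_exponent_le hx1.le (by norm_num)).trans hh1')
  have a3 := hX6 x hxX6 x h hh1'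
  have z8 : (1 : ℝ) ≤ (x : ℝ) ^ (0.245 : ℝ) := Real.one_le_rpow hx1.le (by norm_num)
  have a5 := hX4 x h (by omega) hh2 ((x : ℝ) ^ (0.245 : ℝ)) z8
  -- the sets
  set A := RS x h ((x : ℝ) ^ (0.245 : ℝ)) with hA
  set T := (Finset.Ico x (x + h)).filter (fun n => Squarefree n ∧
      n.primeFactors.card ≤ 3 ∧ ∀ p : ℕ, p.Prime → p ∣ n → (x : ℝ) ^ (0.245 : ℝ) < p) with hT
  set Q := (Finset.Ico x (x + h)).filter
    (fun n => ∃ p : ℕ, p.Prime ∧ (x : ℝ) ^ (0.245 : ℝ) < p ∧ p ^ 2 ∣ n) with hQ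
  set S := A.filter fun n => 4 ≤ n.primeFactors.card with hS
  have hcover : A ⊆ T ∪ (Q ∪ S) := by
    intro n hn
    have hn' := hn
    rw [hA, RS, Finset.mem_filter] at hn'
    obtain ⟨hn1, hn3⟩ := hn'
    rw [Finset.mem_union, Finset.mem_union]
    by_cases hsq : Squarefree n
    · by_cases hq : n.primeFactors.card ≤ 3
      · left
        rw [hT, Finset.mem_filter]
        exact ⟨hn1, hsq, hq, hn3⟩
      · right; right
        rw [hS, Finset.mem_filter]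
        exact ⟨hn, by omega⟩
    · right; left
      rw [hQ, Finset.mem_filter]
      refine ⟨hn1, ?_⟩
      rw [Nat.squarefree_iff_prime_squarefree] at hsq
      push Not at hsq
      obtain ⟨p, hp, hpn⟩ := hsq
      exact ⟨p, hp, hn3 p hp ((dvd_mul_right p p).trans hpn), by rwa [sq]⟩
  have c1 : (A.card : ℝ) ≤ T.card + (Q.card + S.card) := by
    have h1 := Finset.card_le_card hcover
    have h2 := Finset.card_union_le T (Q ∪ S)
    have h3 := Finset.card_union_le Q S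
    exact_mod_cast (by omega : A.card ≤ T.card + (Q.card + S.card))
  have c2 := four_le (by omega : 1 < x) b4 hhx S (by rw [hS])
  have d : (0 : ℝ) ≤ h / Real.log x := by positivity
  have c3 : (Q.card : ℝ) ≤ 0.002 * (h / Real.log x) := by
    have h1 : (2 : ℝ) * h / (x : ℝ) ^ (0.245 : ℝ) ≤ 0.001 * (h / Real.log x) := by
      calc (2 : ℝ) * h / (x : ℝ) ^ (0.245 : ℝ) = h * (2 / (x : ℝ) ^ (0.245 : ℝ)) := by ring
        _ ≤ h * (0.001 / Real.log x) := mul_le_mul_of_nonneg_left b1 (Nat.cast_nonneg h)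
        _ = _ := by ring
    have h2 : 4 * (x : ℝ) ^ (1 / 3 : ℝ) ≤ 0.001 * (h / Real.log x) := by
      calc 4 * (x : ℝ) ^ (1 / 3 : ℝ) ≤ 0.001 / Real.log x * (x : ℝ) ^ (1 / 2 - 0.0002 : ℝ) := b2
        _ ≤ 0.001 / Real.log x * h := mul_le_mul_of_nonneg_left hh1 (by positivity)
        _ = _ := by ring
    have h3 : (Q.card : ℝ) ≤ 2 * h / (x : ℝ) ^ (0.245 : ℝ) + 4 * (x : ℝ) ^ (1 / 3 : ℝ) := by
      convert a5 using 2
    linarith
  have hh0 : (0 : ℝ) ≤ h := Nat.cast_nonneg h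
  have a1' : 0.1265 * (h / Real.log x) ≤ A.card := by
    refine le_trans ?_ a1
    rw [Real.log_rpow hx0] at b3
    have h1 : 2.289 / Real.log x ≤ VV ((x : ℝ) ^ (0.245 : ℝ)) := by
      rw [div_le_iff₀ hL]
      nlinarith
    calc 0.1265 * (h / Real.log x) ≤ (0.0555 - 0.0001) * h * (2.289 / Real.log x) := by
          have : (0.0555 - 0.0001) * h * (2.289 / Real.log x) =
              ((0.0555 - 0.0001) * 2.289) * (h / Real.log x) := by ring
          rw [this]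
          apply mul_le_mul_of_nonneg_right _ d
          norm_num
      _ ≤ _ := mul_le_mul_of_nonneg_left h1 (by positivity)
  have a3' : (S.card : ℝ) ≤ 0.1134 * (h / Real.log x) := by
    have := c2.trans a3
    linarith
  rw [mul_div_assoc]
  linarith

end Pool.Agent.Helper40.AV
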