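import Pool.Agent.Helper40.AV.Base
import Pool.Agent.Helper40.AV.St2
import Pool.Agent.Helper53.AV.SelbergP
import Pool.Agent.Helper30.AV.Rankin
import Pool.Agent.Helper44.MertensProd

/-! Project AV part 2 (KS, MP_768c9c_nt), module LS2: `TailUp`. -/

set_option autoImplicit false

open Filter Topology

namespace Pool.Agent.Helper40.AV.T16

open Pool.Agent.Helper40.AV

theorem exp_tail : Real.exp (4.2 - 2 * 7.99) ≤ 0.0000078 := by
  have h1 : (130000 : ℝ) ≤ Real.exp 11.78 := by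
    refine le_trans ?_ (Real.sum_le_exp_of_nonneg (by norm_num) 32)
    norm_num [Finset.sum_range_succ, Nat.factorial]
  have h2 : (4.2 - 2 * 7.99 : ℝ) = -11.78 := by norm_num
  rw [h2, Real.exp_neg]
  calc (Real.exp 11.78)⁻¹ ≤ (130000 : ℝ)⁻¹ := inv_anti₀ (by norm_num) h1
    _ ≤ 0.0000078 := by norm_num

open Classical in
theorem tailUp : UpB 16 1.00001 := by
  intro ε hε
  obtain ⟨z₁, hz₁, hG⟩ := Pool.Agent.Helper30.AV.gGrankin
  have hS := Helper53AV.selbergP
  obtain ⟨c, C, hc, _, hM⟩ := Pool.Agent.Helper44.mertens_prod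
  have hlog : ∀ᶠ z : ℝ in atTop, Real.log z ≤ (ε * c) * z ^ (0.02 : ℝ) := by
    have h1 := (isLittleO_log_rpow_atTop (show (0 : ℝ) < 0.02 by norm_num)).bound
      (show (0 : ℝ) < ε * c by positivity)
    filter_upwards [h1, eventually_ge_atTop (1 : ℝ)] with z hz hz1
    rw [Real.norm_of_nonneg (Real.log_nonneg hz1),
      Real.norm_of_nonneg (Real.rpow_nonneg (by linarith) _)] at hz
    exact hz
  obtain ⟨z₂, hz₂⟩ := eventually_atTop.1 hlog
  refine ⟨max (max z₁ z₂) 10000000, fun z hz y l hl => ?_⟩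
  have hza : z₁ ≤ z := le_trans (le_trans (le_max_left _ _) (le_max_left _ _)) hz
  have hzb : z₂ ≤ z := le_trans (le_trans (le_max_right _ _) (le_max_left _ _)) hz
  have hzc : (10000000 : ℝ) ≤ z := le_trans (le_max_right _ _) hz
  have hz0 : 0 < z := by linarith
  have hz1 : 1 ≤ z := by linarith
  have hL : 0 < Real.log z := Real.log_pos (by linarith)
  have hV := vv_pos z
  have hVc : c / Real.log z ≤ VV z := (hM z (by linarith)).1
  have hY1 : (1 : ℝ) ≤ z ^ (7.99 : ℝ) := Real.one_le_rpow hz1 (by norm_num)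
  have hsel := hS y l 1 z (z ^ (7.99 : ℝ)) le_rfl hY1
  have hRS : (RS y l z) = ((Finset.Ico y (y + l)).filter fun n => 1 ∣ n ∧
      ∀ r : ℕ, r.Prime → r ∣ n → z < r) := by
    unfold RS
    ext n
    simp
  rw [← hRS] at hsel
  have hGz := hG z 7.99 hza (by norm_num)
  have hGp : 0 < GG z (z ^ (7.99 : ℝ)) := lt_of_lt_of_le one_pos (one_le_gg z hY1)
  have hinv : 1 / GG z (z ^ (7.99 : ℝ)) ≤ 1.0000079 * VV z := by
    rw [div_le_iff₀ hGp]
    have h1 : (0.9999922 : ℝ) ≤ VV z * GG z (z ^ (7.99 : ℝ)) := by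
      have := exp_tail
      linarith
    nlinarith
  have hY2 : (z ^ (7.99 : ℝ)) ^ 2 ≤ l * z ^ (-0.02 : ℝ) := by
    rw [← Real.rpow_natCast, ← Real.rpow_mul hz0.le]
    calc z ^ (7.99 * ((2 : ℕ) : ℝ)) = z ^ (16 : ℝ) * z ^ (-0.02 : ℝ) := by
          rw [← Real.rpow_add hz0]
          norm_num
      _ ≤ l * z ^ (-0.02 : ℝ) := mul_le_mul_of_nonneg_right hl (Real.rpow_nonneg hz0.le _)
  have hlz : z ^ (-0.02 : ℝ) ≤ ε * VV z := by
    have h1 := hz₂ z hzb
    have hp : 0 < z ^ (0.02 : ℝ) := Real.rpow_pos_of_pos hz0 _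
    rw [Real.rpow_neg hz0.le]
    calc (z ^ (0.02 : ℝ))⁻¹ ≤ ε * (c / Real.log z) := by
          rw [inv_le_iff_one_le_mul₀ hp]
          have h2 : 1 ≤ ε * c * z ^ (0.02 : ℝ) / Real.log z := by
            rw [le_div_iff₀ hL, one_mul]
            exact h1
          calc (1 : ℝ) ≤ ε * c * z ^ (0.02 : ℝ) / Real.log z := h2
            _ = _ := by ring
      _ ≤ ε * VV z := mul_le_mul_of_nonneg_left hVc hε.le
  have hl12 : (10000000 : ℝ) ≤ l := by
    calc (10000000 : ℝ) ≤ z := hzc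
      _ = z ^ (1 : ℝ) := (Real.rpow_one z).symm
      _ ≤ z ^ (16 : ℝ) := Real.rpow_le_rpow_of_exponent_le hz1 (by norm_num)
      _ ≤ l := hl
  have hl0 : (0 : ℝ) ≤ l := by linarith
  have h5 : ((l : ℝ) / (1 : ℕ) + 1) / GG z (z ^ (7.99 : ℝ)) ≤ (l + 1) * (1.0000079 * VV z) := by
    rw [Nat.cast_one, div_one, div_eq_mul_one_div]
    exact mul_le_mul_of_nonneg_left hinv (by linarith)
  have h6 : (l : ℝ) * z ^ (-0.02 : ℝ) ≤ l * (ε * VV z) := mul_le_mul_of_nonneg_left hlz hl0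
  have h7 : 1.0000079 * VV z ≤ 0.000001 * l * VV z := by
    apply mul_le_mul_of_nonneg_right _ hV.le
    linarith
  calc ((RS y l z).card : ℝ) ≤ (l + 1) * (1.0000079 * VV z) + l * (ε * VV z) := by
        refine hsel.trans (add_le_add h5 (hY2.trans h6))
    _ = l * (1.0000079 * VV z) + 1.0000079 * VV z + l * (ε * VV z) := by ring
    _ ≤ l * (1.0000079 * VV z) + 0.000001 * l * VV z + l * (ε * VV z) := by linarith
    _ ≤ (1.00001 + ε) * l * VV z := by nlinarith [mul_nonneg hl0 hV.le]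

end Pool.Agent.Helper40.AV.T16
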