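import Pool.Agent.Helper40.AV.Final2
import Pool.Agent.Helper40.AV.TailLo16
import Pool.Agent.Helper40.AV.TailUp16
import Pool.Agent.Helper40.AV.EulerNum

/-! Project AV: kernel computation of the sieve functions on the grid `i / 64`, up to `16`. -/

set_option autoImplicit false

open Filter Topology

namespace Pool.Agent.Helper40.AV.T16

open Pool.Agent.Helper40.AV
open Pool.Agent.Helper59.AV.Tab (tot tot_eq ceil_div upb_mono lob_mono lob_zero)
open Pool.Agent.Helper59.AV (cu_low cu_high)

theorem tailLo16 : LoB 16 0.99999 :=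
  tailLo Pool.Agent.Helper82.AV.roughQ Pool.Agent.Helper9.AV.mertens3
    Pool.Agent.Helper51.AV.gammaNum Helper53AV.selbergP
    Pool.Agent.Helper30.AV.gGrankin Pool.Agent.Helper14.AV.buchstab
    Pool.Agent.Helper14.AV.telescope Pool.Agent.Helper33.AV.primeInt

/-! ### the computation -/

/-- suffix sums -/
def suff : List ℕ → List ℕ
  | [] => [0]
  | a :: l => (a + (suff l).headD 0) :: suff l

/-- new lower values -/
def goLo : ℕ → List ℕ → List ℕ → List ℕ
  | _, [], _ => []
  | _, _ :: _, [] => []
  | m, a :: l, s :: r => max a ((10239897600 - s) / (64 + m)) :: goLo (m + 1) l r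

/-- new upper values -/
def goUp : ℕ → List ℕ → List ℕ → List ℕ
  | _, [], _ => []
  | _, _ :: _, [] => []
  | m, a :: l, s :: r => min a ((10240102400 - s + (63 + m)) / (64 + m)) :: goUp (m + 1) l r

/-- new lower table -/
def lo (F f : List ℕ) : List ℕ := f.take 64 ++ goLo 64 (f.drop 64) (suff F)

/-- new upper table -/
def up (f F : List ℕ) : List ℕ := F.take 64 ++ goUp 64 (F.drop 64) (suff f)

/-- initial upper table -/
def g0 (i : ℕ) : ℕ :=
  if i ≤ 128 then (2280960000 + (i - 1)) / i
  else if i ≤ 192 then (2280960000000 + (127999 + 783 * (i - 128))) / (128000 + 783 * (i - 128))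
  else (2280960000000 + (92991 + 443 * min i 256)) / (92992 + 443 * min i 256)

/-- initial upper table -/
def F0 : List ℕ := (List.range 896).map fun m => g0 (64 + m)

/-- initial lower table -/
def f0 : List ℕ := (List.range 896).map fun _ => 0

/-- all rounds -/
def iter : ℕ → List ℕ × List ℕ
  | 0 => (F0, f0)
  | n + 1 =>
    let p := iter n
    let f' := lo p.1 p.2
    (up f' p.1, f')

set_option maxRecDepth 1000000 in
theorem final9 : (suff (iter 9).1).getD 64 0 ≤ 8674400000 := by decide +kernel

/-! ### correctness -/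

theorem suff_length (l : List ℕ) : (suff l).length = l.length + 1 := by
  induction l with
  | nil => rfl
  | cons a l ih => simp [suff, ih]

theorem suff_getD (l : List ℕ) : ∀ k : ℕ, (suff l).getD k 0 = tot l k := by
  induction l with
  | nil =>
    intro k
    unfold tot
    rcases k with _ | k <;> simp [suff]
  | cons a l ih =>
    intro k
    rcases k with _ | k
    · have h := ih 0
      unfold tot at h ⊢
      rw [List.drop_zero] at h
      simp only [suff, List.getD_cons_zero, List.drop_zero, List.sum_cons]
      rw [← h]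
      congr 1
      cases suff l <;> rfl
    · unfold tot
      simp only [suff, List.getD_cons_succ, List.drop_succ_cons]
      exact ih k

theorem goLo_getD (l : List ℕ) : ∀ (m : ℕ) (r : List ℕ) (j : ℕ), j < l.length → j < r.length →
    (goLo m l r).getD j 0 = max (l.getD j 0) ((10239897600 - r.getD j 0) / (64 + (m + j))) := by
  induction l with
  | nil => intro m r j h; simp at h
  | cons a l ih =>
    intro m r j h1 h2
    rcases r with _ | ⟨s, r⟩
    · simp at h2
    rcases j with _ | j
    · simp [goLo]
    · simp only [goLo, List.getD_cons_succ]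
      rw [ih (m + 1) r j (by simpa using h1) (by simpa using h2)]
      congr 3
      ring

theorem goUp_getD (l : List ℕ) : ∀ (m : ℕ) (r : List ℕ) (j : ℕ), j < l.length → j < r.length →
    (goUp m l r).getD j 0 =
      min (l.getD j 0) ((10240102400 - r.getD j 0 + (63 + (m + j))) / (64 + (m + j))) := by
  induction l with
  | nil => intro m r j h; simp at h
  | cons a l ih =>
    intro m r j h1 h2
    rcases r with _ | ⟨s, r⟩
    · simp at h2
    rcases j with _ | j
    · simp [goUp]
    · simp only [goUp, List.getD_cons_succ]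
      rw [ih (m + 1) r j (by simpa using h1) (by simpa using h2)]
      have e : m + 1 + j = m + (j + 1) := by ring
      rw [e]

theorem goLo_length (l : List ℕ) : ∀ (m : ℕ) (r : List ℕ), l.length ≤ r.length →
    (goLo m l r).length = l.length := by
  induction l with
  | nil => intro m r h; rfl
  | cons a l ih =>
    intro m r h1
    rcases r with _ | ⟨s, r⟩
    · simp at h1
    simp only [goLo, List.length_cons]
    rw [ih (m + 1) r (by simpa using h1)]

theorem goUp_length (l : List ℕ) : ∀ (m : ℕ) (r : List ℕ), l.length ≤ r.length →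
    (goUp m l r).length = l.length := by
  induction l with
  | nil => intro m r h; rfl
  | cons a l ih =>
    intro m r h1
    rcases r with _ | ⟨s, r⟩
    · simp at h1
    simp only [goUp, List.length_cons]
    rw [ih (m + 1) r (by simpa using h1)]

theorem lo_length {F f : List ℕ} (hF : F.length = 896) (hf : f.length = 896) :
    (lo F f).length = 896 := by
  unfold lo
  rw [List.length_append, goLo_length _ _ _ (by rw [suff_length, List.length_drop]; omega),
    List.length_take, List.length_drop, hf]
  rfl

theorem up_length {f F : List ℕ} (hf : f.length = 896) (hF : F.length = 896) :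
    (up f F).length = 896 := by
  unfold up
  rw [List.length_append, goUp_length _ _ _ (by rw [suff_length, List.length_drop]; omega),
    List.length_take, List.length_drop, hF]
  rfl

theorem lo_getD {F f : List ℕ} (hF : F.length = 896) (hf : f.length = 896) {m : ℕ} (hm : m < 896) :
    (lo F f).getD m 0 = if m < 64 then f.getD m 0 else
      max (f.getD m 0) ((10239897600 - tot F (m - 64)) / (64 + m)) := by
  have ht : (f.take 64).length = 64 := by rw [List.length_take, hf]; rfl
  unfold lo
  split_ifs with c
  · rw [List.getD_append _ _ _ _ (by rw [ht]; exact c)]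
    rw [List.getD_eq_getElem?_getD, List.getD_eq_getElem?_getD, List.getElem?_take_of_lt c]
  · rw [List.getD_append_right _ _ _ _ (by rw [ht]; omega), ht,
      goLo_getD _ _ _ _ (by rw [List.length_drop, hf]; omega) (by rw [suff_length, hF]; omega),
      suff_getD]
    have e1 : (f.drop 64).getD (m - 64) 0 = f.getD m 0 := by
      rw [List.getD_eq_getElem?_getD, List.getD_eq_getElem?_getD, List.getElem?_drop]
      congr 2
      omega
    have e2 : 64 + (64 + (m - 64)) = 64 + m := by omega
    rw [e1, e2]

theorem up_getD {f F : List ℕ} (hf : f.length = 896) (hF : F.length = 896) {m : ℕ} (hm : m < 896) :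
    (up f F).getD m 0 = if m < 64 then F.getD m 0 else
      min (F.getD m 0) ((10240102400 - tot f (m - 64) + (63 + m)) / (64 + m)) := by
  have ht : (F.take 64).length = 64 := by rw [List.length_take, hF]; rfl
  unfold up
  split_ifs with c
  · rw [List.getD_append _ _ _ _ (by rw [ht]; exact c)]
    rw [List.getD_eq_getElem?_getD, List.getD_eq_getElem?_getD, List.getElem?_take_of_lt c]
  · rw [List.getD_append_right _ _ _ _ (by rw [ht]; omega), ht,
      goUp_getD _ _ _ _ (by rw [List.length_drop, hF]; omega) (by rw [suff_length, hf]; omega),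
      suff_getD]
    have e1 : (F.drop 64).getD (m - 64) 0 = F.getD m 0 := by
      rw [List.getD_eq_getElem?_getD, List.getD_eq_getElem?_getD, List.getElem?_drop]
      congr 2
      omega
    have e2 : 64 + (m - 64) = m := by omega
    rw [e1, e2]

theorem getD_map (g : ℕ → ℕ) {m : ℕ} (hm : m < 896) :
    ((List.range 896).map g).getD m 0 = g m := by
  rw [List.getD_eq_getElem?_getD, List.getElem?_map, List.getElem?_range hm]
  rfl

/-- valid upper table -/
def UpT (F : List ℕ) : Prop := F.length = 896 ∧
  ∀ m : ℕ, m < 896 → UpB (((64 + m : ℕ) : ℝ) / 64) ((F.getD m 0 : ℕ) / 10000000)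

/-- valid lower table -/
def LoT (f : List ℕ) : Prop := f.length = 896 ∧ (∀ m : ℕ, m < 64 → f.getD m 0 = 0) ∧
  ∀ m : ℕ, m < 896 → LoB (((64 + m : ℕ) : ℝ) / 64) ((f.getD m 0 : ℕ) / 10000000)

theorem lot_f0 : LoT f0 := by
  refine ⟨by rw [f0, List.length_map, List.length_range], fun m hm => ?_, fun m hm => ?_⟩
  · unfold f0
    rw [getD_map _ (by omega)]
  · unfold f0
    rw [getD_map _ (by omega)]
    simpa using lob_zero _

theorem upt_F0 (h : SelUp) : UpT F0 := by
  have hg : Real.exp Real.eulerMascheroniConstant ≤ 1.782 := exp_gamma_le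
  refine ⟨by rw [F0, List.length_map, List.length_range], fun m hm => ?_⟩
  unfold F0
  rw [getD_map _ hm]
  set i : ℕ := 64 + m with hi
  have hi1 : (64 : ℝ) ≤ i := by
    rw [hi]
    exact_mod_cast Nat.le_add_right 64 m
  have hi0 : (0 : ℝ) < i := by linarith
  have hin : 0 < i := by omega
  unfold g0
  split_ifs with c1 c2
  · have hc : (i : ℝ) ≤ 128 := by exact_mod_cast c1
    refine upb_mono (h.1 (i / 64) (by rw [le_div_iff₀ (by norm_num)]; linarith)
      (by rw [div_le_iff₀ (by norm_num)]; linarith)) le_rfl ?_
    have h1 := ceil_div 2280960000 i hin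
    have h2 : 2 * Real.exp Real.eulerMascheroniConstant / (i / 64) ≤ 2 * 1.782 / (i / 64) := by
      gcongr
    have h3 : 2 * 1.782 / ((i : ℝ) / 64) = ((2280960000 : ℕ) : ℝ) / i / 10000000 := by
      field_simp
      norm_num
    rw [h3] at h2
    exact h2.trans (div_le_div_of_nonneg_right h1 (by norm_num))
  · have hc : (i : ℝ) ≤ 192 := by exact_mod_cast c2
    have hc' : (128 : ℝ) < i := by exact_mod_cast (not_le.1 c1)
    refine upb_mono (h.2 (i / 64) (by rw [le_div_iff₀ (by norm_num)]; linarith)
      (by rw [div_le_iff₀ (by norm_num)]; linarith)) le_rfl ?_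
    have h0 := cu_low (u := (i / 64 : ℝ) / 2) (by linarith) (by linarith)
    have hd : ((128000 + 783 * (i - 128) : ℕ) : ℝ) = 128000 + 783 * (i - 128) := by
      rw [Nat.cast_add, Nat.cast_mul, Nat.cast_sub (by omega)]
      norm_num
    have hd' : 0 < 128000 + 783 * (i - 128) := by omega
    have h1 := ceil_div 2280960000000 (128000 + 783 * (i - 128)) hd'
    rw [hd] at h1
    rw [show 128000 + 783 * (i - 128) - 1 = 127999 + 783 * (i - 128) by omega] at h1
    have hpos : (0 : ℝ) < 128000 + 783 * (i - 128) := by linarith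
    have h2 : Real.exp Real.eulerMascheroniConstant / cu ((i / 64 : ℝ) / 2) ≤
        1.782 / ((128000 + 783 * (i - 128)) / 128000) := by
      apply div_le_div₀ (by norm_num) hg (by positivity)
      refine le_trans (le_of_eq ?_) h0
      ring
    have h3 : 1.782 / ((128000 + 783 * ((i : ℝ) - 128)) / 128000) =
        ((2280960000000 : ℕ) : ℝ) / (128000 + 783 * (i - 128)) / 10000000 := by
      have := hpos.ne'
      field_simp
      norm_num
    rw [h3] at h2
    exact h2.trans (div_le_div_of_nonneg_right h1 (by norm_num))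
  · have hc' : (192 : ℝ) < i := by exact_mod_cast (not_le.1 c2)
    have hk1 : ((min i 256 : ℕ) : ℝ) ≤ i := by exact_mod_cast min_le_left _ _
    have hk2 : ((min i 256 : ℕ) : ℝ) ≤ 256 := by exact_mod_cast min_le_right _ _
    have hk3 : (192 : ℝ) ≤ ((min i 256 : ℕ) : ℝ) := by
      have : 192 ≤ min i 256 := by omega
      exact_mod_cast this
    generalize min i 256 = k at hk1 hk2 hk3 ⊢
    refine upb_mono (h.2 (k / 64) (by rw [le_div_iff₀ (by norm_num)]; linarith)
      (by rw [div_le_iff₀ (by norm_num)]; linarith)) (by linarith) ?_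
    have h0 := cu_high (u := (k / 64 : ℝ) / 2) (by linarith) (by linarith)
    have h1 := ceil_div 2280960000000 (92992 + 443 * k) (by omega)
    rw [show 92992 + 443 * k - 1 = 92991 + 443 * k by omega] at h1
    have hd : ((92992 + 443 * k : ℕ) : ℝ) = 92992 + 443 * k := by push_cast; ring
    rw [hd] at h1
    have hpos : (0 : ℝ) < 92992 + 443 * k := by linarith
    have h2 : Real.exp Real.eulerMascheroniConstant / cu ((k / 64 : ℝ) / 2) ≤
        1.782 / ((92992 + 443 * k) / 128000) := by
      apply div_le_div₀ (by norm_num) hg (by positivity)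
      refine le_trans (le_of_eq ?_) h0
      ring
    have h3 : 1.782 / ((92992 + 443 * (k : ℝ)) / 128000) =
        ((2280960000000 : ℕ) : ℝ) / (92992 + 443 * k) / 10000000 := by
      have := hpos.ne'
      field_simp
      norm_num
    rw [h3] at h2
    exact h2.trans (div_le_div_of_nonneg_right h1 (by norm_num))

theorem lot_lo (hTL : LoB 16 0.99999) (hLo : StepLo) {F f : List ℕ} (hF : UpT F) (hf : LoT f) :
    LoT (lo F f) := by
  refine ⟨lo_length hF.1 hf.1, fun m hm => ?_, fun m hm => ?_⟩
  · rw [lo_getD hF.1 hf.1 (by omega), if_pos hm]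
    exact hf.2.1 m hm
  rw [lo_getD hF.1 hf.1 hm]
  split_ifs with c
  · exact hf.2.2 m hm
  have hm16 : 64 ≤ m := not_lt.1 c
  rcases le_total (f.getD m 0) ((10239897600 - tot F (m - 64)) / (64 + m)) with c2 | c2
  swap
  · rw [max_eq_left c2]
    exact hf.2.2 m hm
  rw [max_eq_right c2]
  have hmR : (64 : ℝ) ≤ m := by exact_mod_cast hm16
  rcases le_total 10239897600 (tot F (m - 64)) with c3 | c3
  · rw [Nat.sub_eq_zero_of_le c3, Nat.zero_div]
    simpa using lob_zero _
  have hs : (((64 + m : ℕ) : ℝ) / 64) = (64 + m) / 64 := by push_cast; ring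
  have key := hLo ((64 + m : ℝ) / 64) 16 0.99999 (960 - m) (fun j => ((64 + m : ℝ) + j) / 64)
    (fun j => ((F.getD (m - 64 + j) 0 : ℕ) : ℝ) / 10000000)
    (by linarith) (by simp) (by
      rw [Nat.cast_sub (by omega)]
      push_cast
      ring) (fun j _ => by push_cast; linarith) (fun j hj => by
        have h1 := hF.2 (m - 64 + j) (by omega)
        have e : (((64 + (m - 64 + j) : ℕ) : ℝ) / 64) = ((64 + m : ℝ) + j) / 64 - 1 := by
          rw [show 64 + (m - 64 + j) = m + j by omega]
          push_cast
          ring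
        rw [e] at h1
        exact h1) hTL
  rw [hs]
  refine lob_mono key ?_
  have e1 : ∑ j ∈ Finset.range (960 - m), (((64 + m : ℝ) + ((j + 1 : ℕ) : ℝ)) / 64 -
      ((64 + m : ℝ) + j) / 64) * (((F.getD (m - 64 + j) 0 : ℕ) : ℝ) / 10000000) =
      (tot F (m - 64) : ℝ) / 640000000 := by
    rw [tot_eq F (960 - m) (m - 64) (by rw [hF.1]; omega), Nat.cast_sum, Finset.sum_div]
    apply Finset.sum_congr rfl
    intro j _
    push_cast
    ring
  have hd : (((10239897600 - tot F (m - 64)) / (64 + m) : ℕ) : ℝ) ≤
      (10239897600 - tot F (m - 64)) / (64 + m) := by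
    refine Nat.cast_div_le.trans (le_of_eq ?_)
    rw [Nat.cast_sub c3]
    push_cast
    ring
  have e2 : (16 : ℝ) / ((64 + m) / 64) * 0.99999 - 1 / ((64 + m) / 64) *
      ((tot F (m - 64) : ℝ) / 640000000) =
      (10239897600 - tot F (m - 64)) / (64 + m) / 10000000 := by
    have : (64 + m : ℝ) ≠ 0 := by positivity
    field_simp
    norm_num
    ring
  rw [e1, e2]
  exact div_le_div_of_nonneg_right hd (by norm_num)

theorem upt_up (hTU : UpB 16 1.00001) (hUp : StepUp) {F f : List ℕ} (hF : UpT F) (hf : LoT f) :
    UpT (up f F) := by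
  refine ⟨up_length hf.1 hF.1, fun m hm => ?_⟩
  rw [up_getD hf.1 hF.1 hm]
  split_ifs with c
  · exact hF.2 m hm
  have hm16 : 64 ≤ m := not_lt.1 c
  rcases le_total (F.getD m 0) ((10240102400 - tot f (m - 64) + (63 + m)) / (64 + m)) with c2 | c2
  · rw [min_eq_left c2]
    exact hF.2 m hm
  rw [min_eq_right c2]
  have hmR : (64 : ℝ) ≤ m := by exact_mod_cast hm16
  have hs : (((64 + m : ℕ) : ℝ) / 64) = (64 + m) / 64 := by push_cast; ring
  have key := hUp ((64 + m : ℝ) / 64) 16 1.00001 (960 - m) (fun j => ((64 + m : ℝ) + j) / 64)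
    (fun j => ((f.getD (m - 64 + j) 0 : ℕ) : ℝ) / 10000000)
    (by linarith) (by simp) (by
      rw [Nat.cast_sub (by omega)]
      push_cast
      ring) (fun j _ => by push_cast; linarith) (fun j hj => by
        rcases lt_or_ge (m - 64 + j) 64 with c3 | c3
        · left
          rw [hf.2.1 _ c3]
          simp
        right
        have h1 := hf.2.2 (m - 64 + j) (by omega)
        have e : (((64 + (m - 64 + j) : ℕ) : ℝ) / 64) = ((64 + m : ℝ) + j) / 64 - 1 := by
          rw [show 64 + (m - 64 + j) = m + j by omega]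
          push_cast
          ring
        rw [e] at h1
        refine ⟨?_, h1⟩
        have h2 : 128 ≤ m + j := by omega
        have h3 : (128 : ℝ) ≤ m + j := by exact_mod_cast h2
        linarith) hTU
  rw [hs]
  refine upb_mono key le_rfl ?_
  have e1 : ∑ j ∈ Finset.range (960 - m), (((64 + m : ℝ) + ((j + 1 : ℕ) : ℝ)) / 64 -
      ((64 + m : ℝ) + j) / 64) * (((f.getD (m - 64 + j) 0 : ℕ) : ℝ) / 10000000) =
      (tot f (m - 64) : ℝ) / 640000000 := by
    rw [tot_eq f (960 - m) (m - 64) (by rw [hf.1]; omega), Nat.cast_sum, Finset.sum_div]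
    apply Finset.sum_congr rfl
    intro j _
    push_cast
    ring
  have hd : ((10240102400 : ℝ) - tot f (m - 64)) / (64 + m) ≤
      (((10240102400 - tot f (m - 64) + (63 + m)) / (64 + m) : ℕ) : ℝ) := by
    have h1 := ceil_div (10240102400 - tot f (m - 64)) (64 + m) (by omega)
    have e0 : (64 + m - 1) = 63 + m := by omega
    rw [e0] at h1
    refine le_trans ?_ h1
    have h2 : (10240102400 : ℝ) - tot f (m - 64) ≤ ((10240102400 - tot f (m - 64) : ℕ) : ℝ) := by
      rw [sub_le_iff_le_add]
      have : 10240102400 ≤ (10240102400 - tot f (m - 64)) + tot f (m - 64) := by omega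
      exact_mod_cast this
    have h3 : ((64 + m : ℕ) : ℝ) = 64 + m := by push_cast; ring
    rw [h3]
    exact div_le_div_of_nonneg_right h2 (by positivity)
  have e2 : (16 : ℝ) / ((64 + m) / 64) * 1.00001 - 1 / ((64 + m) / 64) *
      ((tot f (m - 64) : ℝ) / 640000000) =
      (10240102400 - tot f (m - 64)) / (64 + m) / 10000000 := by
    have : (64 + m : ℝ) ≠ 0 := by positivity
    field_simp
    norm_num
    ring
  rw [e1, e2]
  exact div_le_div_of_nonneg_right hd (by norm_num)

theorem iter_zero : iter 0 = (F0, f0) := rfl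

theorem iter_succ (n : ℕ) :
    iter (n + 1) = (up (lo (iter n).1 (iter n).2) (iter n).1, lo (iter n).1 (iter n).2) := rfl

attribute [local irreducible] F0 f0 lo up

theorem tables (n : ℕ) : UpT (iter n).1 ∧ LoT (iter n).2 := by
  have hLo := Pool.Agent.Helper5.AV.stepLo Pool.Agent.Helper9.AV.mertens3
  have hUp := Pool.Agent.Helper71.AV.stepUp Pool.Agent.Helper9.AV.mertens3
  induction n with
  | zero =>
    rw [iter_zero]
    exact ⟨upt_F0 selUp', lot_f0⟩
  | succ n ih =>
    have h1 : LoT (lo (iter n).1 (iter n).2) := lot_lo tailLo16 hLo ih.1 ih.2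
    have h2 := upt_up tailUp hUp ih.1 h1
    rw [iter_succ]
    exact ⟨h2, h1⟩

end Pool.Agent.Helper40.AV.T16
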